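import Pool.Agent.FS90.Ty
import Pool.Agent.FO90.Emb
import Pool.Agent.BF80.MainV

/-!
# The relatively algebraically closed subfield generated by an element embeds in ultrapowers
-/

set_option maxSynthPendingDepth 10

open Polynomial

namespace FS90

open FT80 BF80 FO90

namespace Em

/-- algebraic elements are in the image -/
def RAC {E M : Type*} [Field E] [Field M] (e : E →+* M) : Prop :=
  ∀ P : Polynomial E, P ≠ 0 → ∀ y : M, P.eval₂ e y = 0 → ∃ u, e u = y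

theorem RAC.root {E M : Type*} [Field E] [Field M] {e : E →+* M} (h : RAC e) (z : M) (n : ℕ)
    (hn : n ≠ 0) (hz : z ^ n ∈ e.fieldRange) : z ∈ e.fieldRange := by
  obtain ⟨c, hc⟩ := hz
  obtain ⟨u, hu⟩ := h (X ^ n - C c) (X_pow_sub_C_ne_zero (Nat.pos_of_ne_zero hn) c) z (by
    rw [eval₂_sub, eval₂_pow, eval₂_X, eval₂_C, hc, sub_self])
  exact ⟨u, hu⟩

theorem RAC.quad {E M : Type*} [Field E] [Field M] {e : E →+* M} (h : RAC e) {t : M} {te : E}
    (ht : e te = t) (c y : M) (hc : c ∈ e.fieldRange) (hy : y ^ 2 + y = t * c ^ 2) :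
    y ∈ e.fieldRange := by
  obtain ⟨c, rfl⟩ := hc
  have hne : (X ^ 2 + X - C (te * c ^ 2) : Polynomial E) ≠ 0 := by
    intro h0
    have h1 := congrArg (fun q => q.coeff 2) h0
    simp only [coeff_sub, coeff_add, coeff_X_pow, coeff_X, coeff_C, coeff_zero] at h1
    norm_num at h1
  obtain ⟨u, hu⟩ := h _ hne y (by
    rw [eval₂_sub, eval₂_add, eval₂_pow, eval₂_X, eval₂_C, hy, map_mul, map_pow, ht, sub_self])
  exact ⟨u, hu⟩

/-- the subfield of the algebraic elements -/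
theorem rac_sub {R L : Type*} [CommRing R] [IsDomain R] [Field L] (s : R →+* L) :
    RAC (algField s).subtype := by
  intro P hP y hy
  have h1 : BF80.Alg1 s y := by
    refine BF80.alg1_trans (N := P.map (algField s).subtype) ?_ ?_ ?_
    · rwa [Ne, Polynomial.map_eq_zero]
    · intro i
      rw [coeff_map]
      exact (P.coeff i).2
    · rw [eval_map]
      exact hy
  exact ⟨⟨y, h1⟩, rfl⟩

/-- images of algebraic elements -/
theorem alg_map {R L Q : Type*} [CommRing R] [IsDomain R] [Field L] [Field Q] (s : R →+* L)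
    (s' : R →+* Q) (ι : algField s →+* Q) (h : ∀ r, ι ⟨s r, alg1_map s r⟩ = s' r)
    (u : algField s) : BF80.Alg1 s' (ι u) := by
  obtain ⟨q, hq, h0⟩ := u.2
  refine ⟨q, hq, ?_⟩
  have h2 : ev1 s' (ι u) q = ι (ev1 (s.codRestrict (algField s) (fun r => alg1_map s r)) u q) := by
    have h3 : ev1 s' (ι u) = ι.comp (ev1 (s.codRestrict (algField s) (fun r => alg1_map s r)) u) := by
      apply Polynomial.ringHom_ext
      · intro a
        rw [RingHom.comp_apply, bfEv1_C, bfEv1_C]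
        exact (h a).symm
      · rw [RingHom.comp_apply, bfEv1_X, bfEv1_X]
    rw [h3, RingHom.comp_apply]
  have h4 : ev1 (s.codRestrict (algField s) (fun r => alg1_map s r)) u q = 0 := by
    apply Subtype.ext
    have h5 : ((algField s).subtype.comp
        (ev1 (s.codRestrict (algField s) (fun r => alg1_map s r)) u)) = ev1 s (u : L) := by
      apply Polynomial.ringHom_ext
      · intro a
        rw [RingHom.comp_apply, bfEv1_C, bfEv1_C]
        rfl
      · rw [RingHom.comp_apply, bfEv1_X, bfEv1_X]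
        rfl
    have h6 := congrArg (fun f => f q) h5
    simp only [RingHom.comp_apply] at h6
    rw [h0] at h6
    exact h6
  rw [h2, h4, map_zero]

theorem rac_of {R L Q : Type*} [CommRing R] [IsDomain R] [Field L] [Field Q] (s : R →+* L)
    (s' : R →+* Q) (ι : algField s →+* Q) (h : ∀ r, ι ⟨s r, alg1_map s r⟩ = s' r)
    (h3 : ∀ y, BF80.Alg1 s' y → ∃ u, ι u = y) : RAC ι := by
  intro P hP y hy
  apply h3
  refine BF80.alg1_trans (N := P.map ι) ?_ ?_ ?_
  · rwa [Ne, Polynomial.map_eq_zero]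
  · intro i
    rw [coeff_map]
    exact alg_map s s' ι h _
  · rw [eval_map]
    exact hy

section

variable {p : ℕ} [Fact p.Prime] {M Q : Type} [Field M] [Field Q] {σ : P1 p →+* M}
    {τ : P1 p →+* Q}

/-- the statement for an embedding of `E` -/
theorem main {R : Type*} [CommRing R] [IsDomain R] (hM : MdlV p σ) (hQ : MdlV p τ) (s : R →+* M)
    (hs : ∀ f, BF80.Alg1 s (σ f)) (ι : algField s →+* Q) (h1 : ∀ f, ι ⟨σ f, hs f⟩ = τ f) (h2 : RAC ι)
    (x : M) (hx : BF80.Alg1 s x)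
    (h4 : ∀ m : ℕ, m ≠ 0 → ∀ y : algField s, y ≠ 0 → VC hM.toMdl hQ.toMdl m (y : M) (ι y)) :
    ∃ (E : Type) (_ : Field E) (_ : Infinite E) (e1 : E →+* M) (e2 : E →+* Q) (te xe : E),
      e1 te = σ Polynomial.X ∧ e2 te = τ Polynomial.X ∧ e1 xe = x ∧
      (∀ (D : ℕ), ¬ p ∣ D → ∀ y : E, y ≠ 0 → Same σ τ D (e1 y) (e2 y)) ∧
      (∀ y z : E, hM.toMdl.fv (e1 y) ≤ hM.toMdl.fv (e1 z) ↔
        hQ.toMdl.fv (e2 y) ≤ hQ.toMdl.fv (e2 z)) ∧
      (∀ m : ℕ, m ≠ 0 → ∀ y : E, y ≠ 0 → VC hM.toMdl hQ.toMdl m (e1 y) (e2 y)) ∧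
      (∀ P : Polynomial E, P ≠ 0 → ∀ y : M, P.eval₂ e1 y = 0 → ∃ u, e1 u = y) ∧
      ∀ P : Polynomial E, P ≠ 0 → ∀ y : Q, P.eval₂ e2 y = 0 → ∃ u, e2 u = y := by
  have hinf : Infinite (algField s) :=
    Infinite.of_injective (fun f : P1 p => (⟨σ f, hs f⟩ : algField s))
      (fun f g hfg => hM.toMdl.σ_injective (congrArg Subtype.val hfg))
  have hr : RAC (algField s).subtype := rac_sub s
  refine ⟨algField s, inferInstance, hinf, (algField s).subtype, ι, ⟨σ X, hs X⟩, ⟨x, hx⟩, rfl, h1 X,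
    rfl, ?_, ?_, h4, hr, h2⟩
  · intro D hD y hy
    exact emb_same hM.toMdl hQ.toMdl (algField s).subtype ι ⟨σ X, hs X⟩ rfl (h1 X)
      (fun z n hn hz => hr.root z n hn hz) hD y hy
  · intro y z
    exact emb_fv hM.toMdl hQ.toMdl (algField s).subtype ι ⟨σ X, hs X⟩ rfl (h1 X)
      (fun c y hc hy => hr.quad (te := ⟨σ X, hs X⟩) rfl c y hc hy) y z

/-- values of algebraic elements -/
theorem vc_alg (hM : MdlV p σ) (hQ : MdlV p τ) {ι : algField σ →+* Q}
    (hι : ∀ r h, ι ⟨σ r, h⟩ = τ r) (m : ℕ) (hm : m ≠ 0) (y : algField σ) (hy : y ≠ 0) :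
    VC hM.toMdl hQ.toMdl m (y : M) (ι y) := by
  have hy' : (y : M) ≠ 0 := fun h => hy (Subtype.ext h)
  obtain ⟨k, h1, h2⟩ := fv_alg hM.toMdl hQ.toMdl hι hy'
  obtain ⟨q, r, rfl⟩ : ∃ (q : ℤ) (r : ℕ), k = r + q * m := by
    have hn' : (m : ℤ) ≠ 0 := by exact_mod_cast hm
    obtain ⟨r, hr⟩ := Int.eq_ofNat_of_zero_le (Int.emod_nonneg k hn')
    refine ⟨k / m, r, ?_⟩
    rw [← hr]
    exact (Int.emod_add_ediv_mul k m).symm
  have ht : hM.toMdl.fv (σ X) ≠ 0 := (Valuation.ne_zero_iff _).2 hM.toMdl.t_ne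
  have ht' : hQ.toMdl.fv (τ X) ≠ 0 := (Valuation.ne_zero_iff _).2 hQ.toMdl.t_ne
  refine ⟨r, σ X ^ q, τ X ^ q, zpow_ne_zero _ hM.toMdl.t_ne, zpow_ne_zero _ hQ.toMdl.t_ne, ?_, ?_⟩
  · rw [h1, zpow_add₀ ht, zpow_natCast, map_zpow₀, zpow_mul, zpow_natCast]
  · rw [h2, zpow_add₀ ht', zpow_natCast, map_zpow₀, zpow_mul, zpow_natCast]

end

end Em

/-- FS-3 (Emb.lean; helper52): the field generated by `x`, closed under algebraic elements, embeds
in the ultrapower of every other model -/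
theorem exists_E {p : ℕ} [Fact p.Prime] {M N : Type} [Field M] [Field N] {σ : P1 p →+* M}
    {τ : P1 p →+* N} (hM : MdlV p σ) (hN : MdlV p τ) (x : M) :
    ∃ (E : Type) (_ : Field E) (_ : Infinite E) (e1 : E →+* M) (e2 : E →+* UP N) (te xe : E),
      e1 te = σ Polynomial.X ∧ e2 te = diag N (τ Polynomial.X) ∧ e1 xe = x ∧
      (∀ (D : ℕ), ¬ p ∣ D → ∀ y : E, y ≠ 0 → Same σ ((diag N).comp τ) D (e1 y) (e2 y)) ∧
      (∀ y z : E, hM.toMdl.fv (e1 y) ≤ hM.toMdl.fv (e1 z) ↔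
        (mdl_up hN.toMdl).fv (e2 y) ≤ (mdl_up hN.toMdl).fv (e2 z)) ∧
      (∀ m : ℕ, m ≠ 0 → ∀ y : E, y ≠ 0 → VC hM.toMdl (mdl_up hN.toMdl) m (e1 y) (e2 y)) ∧
      (∀ P : Polynomial E, P ≠ 0 → ∀ y : M, P.eval₂ e1 y = 0 → ∃ u, e1 u = y) ∧
      ∀ P : Polynomial E, P ≠ 0 → ∀ y : UP N, P.eval₂ e2 y = 0 → ∃ u, e2 u = y := by
  have hQ : MdlV p ((diag N).comp τ) := mdlV_up hN
  by_cases hx : BF80.Alg1 σ x
  · obtain ⟨j, hj1, hj2, -, -⟩ := hM.toMdl.exists_j
    obtain ⟨j', hj1', hj2', -, -⟩ := hQ.toMdl.exists_j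
    have hmem : ∀ z, j z ∈ algField σ := fun z => (hj2 _).2 ⟨z, rfl⟩
    have hbij : Function.Bijective (j.codRestrict (algField σ) hmem) := by
      refine ⟨RingHom.injective _, fun z => ?_⟩
      obtain ⟨w, hw⟩ := (hj2 _).1 z.2
      exact ⟨w, Subtype.ext hw⟩
    let A : k0 p ≃+* algField σ := RingEquiv.ofBijective _ hbij
    let ι : algField σ →+* UP N := j'.comp A.symm.toRingHom
    have hA : ∀ z, ι (A z) = j' z := by
      intro z
      show j' (A.symm (A z)) = j' z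
      rw [A.symm_apply_apply]
    have hι : ∀ r h, ι ⟨σ r, h⟩ = ((diag N).comp τ) r := by
      intro r h
      have h1 : (⟨σ r, h⟩ : algField σ) = A (sig0 p r) := Subtype.ext (hj1 r).symm
      rw [h1, hA, hj1']
    refine Em.main hM hQ σ (fun f => alg1_map σ f) ι (fun f => hι f _) ?_ x hx
      (fun m hm y hy => Em.vc_alg hM hQ hι m hm y hy)
    refine Em.rac_of σ ((diag N).comp τ) ι (fun r => hι r _) ?_
    intro y hy
    obtain ⟨z, hz⟩ := (hj2' y).1 hy
    exact ⟨A z, by rw [hA, hz]⟩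
  · have hcnt := acl_countable (p := p) hx
    let f : {c : algField (ev1 σ x) // (c : M) ≠ 0} → hM.toMdl.VGˣ :=
      fun c => hM.toMdl.vu (c.1 : M) c.2
    have hC : (Set.range f).Countable := by
      have : Countable (algField (ev1 σ x)) := hcnt.to_subtype
      exact Set.countable_range f
    have htt : VIn hM.toMdl (mdl_up hN.toMdl) (Subgroup.zpowers (hM.toMdl.vu (σ X) hM.toMdl.t_ne,
        hQ.toMdl.vu (((diag N).comp τ) X) hQ.toMdl.t_ne)) (σ X) (diag N (τ X)) :=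
      ⟨hM.toMdl.t_ne, hQ.toMdl.t_ne, Subgroup.mem_zpowers _⟩
    obtain ⟨Λ', hle, hiso, hdom⟩ := piso_extend hM hN _ (piso_t hM.zg hQ.zg) htt (Set.range f) hC
    have htt' : VIn hM.toMdl (mdl_up hN.toMdl) Λ' (σ X) (diag N (τ X)) := by
      obtain ⟨h1, h2, h3⟩ := htt
      exact ⟨h1, h2, hle h3⟩
    obtain ⟨ι, h1, -, h3, h4⟩ := starV hM.toMdl hN.toMdl Λ' hiso htt' x hx
      (fun c hc hc0 => hdom _ ⟨⟨⟨c, hc⟩, hc0⟩, rfl⟩) ∅ Set.countable_empty
    have hs : ∀ f, BF80.Alg1 (ev1 σ x) (σ f) := fun f => alg1_lift (alg1_map σ f)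
    refine Em.main hM hQ (ev1 σ x) hs ι (fun f => h1 f _) ?_ x (x_mem_acl x) ?_
    · refine Em.rac_of (ev1 σ x) (ev1 ((diag N).comp τ) (ι ⟨x, x_mem_acl x⟩)) ι ?_
        (fun y hy => h3 _ y hy)
      intro r
      have h5 : ι.comp ((ev1 σ x).codRestrict (algField (ev1 σ x)) (fun r => alg1_map _ r)) =
          ev1 ((diag N).comp τ) (ι ⟨x, x_mem_acl x⟩) := by
        apply Polynomial.ringHom_ext
        · intro a
          rw [RingHom.comp_apply, bfEv1_C]
          have h6 : ((ev1 σ x).codRestrict (algField (ev1 σ x)) (fun r => alg1_map _ r)) (C a) =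
              ⟨σ a, hs a⟩ := Subtype.ext (bfEv1_C σ x a)
          rw [h6]
          exact h1 a _
        · rw [RingHom.comp_apply, bfEv1_X]
          have h6 : ((ev1 σ x).codRestrict (algField (ev1 σ x)) (fun r => alg1_map _ r)) X =
              ⟨x, x_mem_acl x⟩ := Subtype.ext (bfEv1_X σ x)
          rw [h6]
      exact congrArg (fun g => g r) h5
    · intro m hm y hy
      have hy' : (y : M) ≠ 0 := fun h => hy (Subtype.ext h)
      have hte : σ X ≠ 0 := hM.toMdl.t_ne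
      obtain ⟨i, -, y1, hy1, h5⟩ := hM.PD hm (y : M) hy'
      let T : algField (ev1 σ x) := ⟨σ X, hs X⟩
      have hT : T ≠ 0 := fun h => hte (congrArg Subtype.val h)
      have hw : y / T ^ i ≠ 0 := div_ne_zero hy (pow_ne_zero _ hT)
      obtain ⟨ha, hb, hab⟩ := h4 (y / T ^ i) hw
      have hvt : hM.toMdl.fv (σ X) ≠ 0 := (Valuation.ne_zero_iff _).2 hte
      have h6 : hM.toMdl.fv ((y / T ^ i : algField (ev1 σ x)) : M) = hM.toMdl.fv y1 ^ m := by
        have h7 : ((y / T ^ i : algField (ev1 σ x)) : M) = (y : M) / σ X ^ i := by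
          push_cast
          rfl
        rw [h7, map_div₀, map_pow, h5, mul_div_cancel_left₀ _ (pow_ne_zero _ hvt)]
      obtain ⟨b', hb'⟩ := (hiso.dvd m hm _ hab).1 ⟨hM.toMdl.vu y1 hy1, Units.ext (by
        rw [Units.val_pow_eq_pow_val, Mdl.vu_val, Mdl.vu_val]
        exact h6.symm)⟩
      obtain ⟨y2, hy2, rfl⟩ := (mdl_up hN.toMdl).vu_surj b'
      have h8 : (mdl_up hN.toMdl).fv (ι (y / T ^ i)) = (mdl_up hN.toMdl).fv y2 ^ m := by
        have h9 := congrArg Units.val hb'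
        rw [Units.val_pow_eq_pow_val, Mdl.vu_val] at h9
        exact h9.symm
      have hT' : ι T = diag N (τ X) := h1 X _
      have hte' : diag N (τ X) ≠ 0 := (mdl_up hN.toMdl).t_ne
      have hvt' : (mdl_up hN.toMdl).fv (diag N (τ X)) ≠ 0 := (Valuation.ne_zero_iff _).2 hte'
      refine ⟨i, y1, y2, hy1, hy2, h5, ?_⟩
      rw [← h8, map_div₀, map_pow, hT', map_div₀, map_pow]
      show _ = (mdl_up hN.toMdl).fv (diag N (τ X)) ^ i * _
      rw [mul_div_cancel₀ _ (pow_ne_zero _ hvt')]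

end FS90
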