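import Pool.Agent.FS90.Defs
import Pool.Agent.CB90.Down
import Pool.Agent.BF80.Val

/-!
# From the ultrapower to the field
-/

set_option maxSynthPendingDepth 10

namespace FS90

open FT80 BF80 LD90 NS90 Filter

namespace Lo

theorem pv_map {R S : Type*} [CommRing R] [CommRing S] (φ : R →+* S) (t : R) (s z : ℕ → R)
    (f : PZ) : pv (φ t) (fun i => φ (s i)) (fun i => φ (z i)) f = φ (pv t s z f) :=
  CB90.qv_map φ t s z f

theorem pr_map {R S : Type*} [CommRing R] [CommRing S] (φ : R →+* S) (t : R) (s z : ℕ → R)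
    (L : List PZ) : pr (φ t) (fun i => φ (s i)) (fun i => φ (z i)) L = φ (pr t s z L) := by
  unfold pr
  rw [map_list_prod, List.map_map]
  congr 1
  refine List.map_congr_left fun l _ => ?_
  exact pv_map φ t s z l

variable {K : Type} [Field K] (t : K)

/-- the hyperfilter -/
noncomputable abbrev hf : Ultrafilter ℕ := hyperfilter ℕ

theorem lift (y : ℕ → UP K) : ∃ Y : ℕ → (ℕ → K), (fun i => cl K (Y i)) = y := by
  have hY : ∀ i, ∃ r : ℕ → K, cl K r = y i := fun i => cl_surj _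
  choose Y hY using hY
  exact ⟨Y, funext hY⟩

theorem eev (S : ℕ → (ℕ → K)) (b : PL) (n : ℕ) :
    ev (fun _ : ℕ => t) S b n = ev t (fun i => S i n) b :=
  (CB90.ev_map' (Pi.evalRingHom (fun _ : ℕ => K) n) (fun _ => t) S b).symm

theorem epr (S Z : ℕ → (ℕ → K)) (L : List PZ) (n : ℕ) :
    pr (fun _ : ℕ => t) S Z L n = pr t (fun i => S i n) (fun i => Z i n) L :=
  (pr_map (Pi.evalRingHom (fun _ : ℕ => K) n) (fun _ => t) S Z L).symm

theorem ht : diag K t = cl K (fun _ => t) := (cl_const t).symm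

theorem pr_cl (S Z : ℕ → (ℕ → K)) (L : List PZ) :
    pr (diag K t) (fun i => cl K (S i)) (fun i => cl K (Z i)) L =
      cl K (fun n => pr t (fun i => S i n) (fun i => Z i n) L) := by
  rw [ht, pr_map]
  congr 1
  funext n
  exact epr t S Z L n

theorem ev_cl (S : ℕ → (ℕ → K)) (b : PL) :
    ev (diag K t) (fun i => cl K (S i)) b = cl K (fun n => ev t (fun i => S i n) b) := by
  rw [ht, CB90.ev_map']
  congr 1
  funext n
  exact eev t S b n

theorem cl_zero (f : ℕ → K) : cl K f = 0 ↔ ∀ᶠ n in (hf : Filter ℕ), f n = 0 := by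
  rw [← map_zero (cl K), cl_eq]
  rfl

/-- choice of representatives -/
theorem ev_choice {A : Type*} [Nonempty A] {P : ℕ → A → Prop} :
    (∀ᶠ n in (hf : Filter ℕ), ∃ a, P n a) ↔ ∃ f : ℕ → A, ∀ᶠ n in (hf : Filter ℕ), P n (f n) := by
  classical
  constructor
  · intro h
    refine ⟨fun n => if hn : ∃ a, P n a then hn.choose else Classical.arbitrary A, ?_⟩
    filter_upwards [h] with n hn
    rw [dif_pos hn]
    exact hn.choose_spec
  · rintro ⟨f, h⟩
    filter_upwards [h] with n hn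
    exact ⟨f n, hn⟩

theorem los_DV (a b : ℕ → K) : DV (diag K t) (cl K a) (cl K b) ↔
    ∀ᶠ n in (hf : Filter ℕ), DV t (a n) (b n) := by
  constructor
  · rintro ⟨c, ⟨y, hy⟩, hc⟩
    obtain ⟨c, rfl⟩ := cl_surj c
    obtain ⟨y, rfl⟩ := cl_surj y
    rw [ht, ← map_pow, ← map_add, ← map_pow, ← map_mul, cl_eq] at hy
    rw [← map_mul, cl_eq] at hc
    filter_upwards [hy, hc] with n h1 h2
    exact ⟨c n, ⟨y n, h1⟩, h2⟩
  · intro h
    have h1 : ∀ᶠ n in (hf : Filter ℕ), ∃ q : K × K, q.2 ^ 2 + q.2 = t * q.1 ^ 2 ∧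
        q.1 * a n = b n := by
      filter_upwards [h] with n hn
      obtain ⟨c, ⟨y, hy⟩, hc⟩ := hn
      exact ⟨(c, y), hy, hc⟩
    obtain ⟨f, hf'⟩ := ev_choice.1 h1
    refine ⟨cl K fun n => (f n).1, ⟨cl K fun n => (f n).2, ?_⟩, ?_⟩
    · rw [ht, ← map_pow, ← map_add, ← map_pow, ← map_mul, cl_eq]
      filter_upwards [hf'] with n hn
      exact hn.1
    · rw [← map_mul, cl_eq]
      filter_upwards [hf'] with n hn
      exact hn.2

theorem los_atom (S Z : ℕ → (ℕ → K)) (x : Atm) :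
    Atm.Holds (diag K t) (DV (diag K t)) (fun i => cl K (S i)) (fun i => cl K (Z i)) x ↔
      ∀ᶠ n in (hf : Filter ℕ), Atm.Holds t (DV t) (fun i => S i n) (fun i => Z i n) x := by
  obtain ⟨k, l, l', F⟩ := x
  match k with
  | 0 =>
    show pr _ _ _ l = 0 ↔ ∀ᶠ n in (hf : Filter ℕ), pr _ _ _ l = 0
    rw [pr_cl, cl_zero]
  | 1 =>
    show DV _ (pr _ _ _ l) (pr _ _ _ l') ↔
      ∀ᶠ n in (hf : Filter ℕ), DV t (pr _ _ _ l) (pr _ _ _ l')
    rw [pr_cl, pr_cl, los_DV]
  | 2 =>
    show (∃ y : ℕ → UP K, pr _ _ _ l = ev _ y F) ↔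
      ∀ᶠ n in (hf : Filter ℕ), ∃ y : ℕ → K, pr t _ _ l = ev t y F
    rw [pr_cl, ev_choice]
    constructor
    · rintro ⟨y, hy⟩
      obtain ⟨Y, rfl⟩ := lift y
      rw [ev_cl, cl_eq] at hy
      exact ⟨fun n i => Y i n, hy⟩
    · rintro ⟨Y, hY⟩
      refine ⟨fun i => cl K fun n => Y n i, ?_⟩
      rw [ev_cl, cl_eq]
      exact hY
  | k + 3 =>
    show (∃ y : ℕ → UP K, pr _ _ _ l = pr _ _ y l') ↔
      ∀ᶠ n in (hf : Filter ℕ), ∃ y : ℕ → K, pr t _ _ l = pr t _ y l'
    rw [pr_cl, ev_choice]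
    constructor
    · rintro ⟨y, hy⟩
      obtain ⟨Y, rfl⟩ := lift y
      rw [pr_cl, cl_eq] at hy
      exact ⟨fun n i => Y i n, hy⟩
    · rintro ⟨Y, hY⟩
      refine ⟨fun i => cl K fun n => Y n i, ?_⟩
      rw [pr_cl, cl_eq]
      exact hY

theorem los_mat (S Z : ℕ → (ℕ → K)) (m : Mat) :
    MHolds (diag K t) (DV (diag K t)) (fun i => cl K (S i)) (fun i => cl K (Z i)) m ↔
      ∀ᶠ n in (hf : Filter ℕ), MHolds t (DV t) (fun i => S i n) (fun i => Z i n) m := by
  have h1 : (∀ᶠ n in (hf : Filter ℕ), MHolds t (DV t) (fun i => S i n) (fun i => Z i n) m) ↔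
      ∃ c ∈ {c | c ∈ m}, ∀ᶠ n in (hf : Filter ℕ), ∀ x ∈ {x | x ∈ c}, (x.1 = true ↔
        Atm.Holds t (DV t) (fun i => S i n) (fun i => Z i n) x.2) :=
    Ultrafilter.eventually_exists_mem_iff (List.finite_toSet m)
  rw [h1]
  refine exists_congr fun c => and_congr_right fun _ => ?_
  rw [Filter.eventually_all_finite (List.finite_toSet c)]
  refine forall_congr' fun x => imp_congr_right fun _ => ?_
  rw [los_atom]
  rcases x.1 with _ | _
  · simp only [Bool.false_eq_true, false_iff]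
    exact Ultrafilter.eventually_not.symm
  · simp only [true_iff]

theorem upd_cl (Z : ℕ → (ℕ → K)) (i : ℕ) (X : ℕ → K) :
    Function.update (fun j => cl K (Z j)) i (cl K X) =
      fun j => cl K (Function.update Z i X j) := (CB90.update_map (cl K) Z i X).symm

theorem upd_ev (Z : ℕ → (ℕ → K)) (i : ℕ) (X : ℕ → K) (n : ℕ) :
    (fun j => Function.update Z i X j n) = Function.update (fun j => Z j n) i (X n) :=
  CB90.update_map (Pi.evalRingHom (fun _ : ℕ => K) n) Z i X

theorem los_root (S : ℕ → (ℕ → K)) (i : ℕ) (b : PL) (X : ℕ → K) :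
    Root (diag K t) (fun j => cl K (S j)) i b (cl K X) ↔
      ∀ᶠ n in (hf : Filter ℕ), Root t (fun j => S j n) i b (X n) := by
  have key : ∀ Y : ℕ → K,
      ev (diag K t) (Function.update (fun j => cl K (S j)) i (cl K Y)) b =
        cl K fun n => ev t (Function.update (fun j => S j n) i (Y n)) b := by
    intro Y
    rw [upd_cl, ev_cl]
    congr 1
    funext n
    rw [upd_ev]
  unfold Root
  rw [key, cl_zero, Filter.eventually_and]
  refine and_congr Iff.rfl ?_
  rw [ev_choice]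
  constructor
  · rintro ⟨y, hy⟩
    obtain ⟨Y, rfl⟩ := cl_surj y
    refine ⟨Y, ?_⟩
    rw [key, ne_eq, cl_zero, ← Ultrafilter.eventually_not] at hy
    exact hy
  · rintro ⟨Y, hY⟩
    refine ⟨cl K Y, ?_⟩
    rw [key, ne_eq, cl_zero, ← Ultrafilter.eventually_not]
    exact hY

/-- the existential quantifier -/
theorem los_ex {P : UP K → Prop} {Q : ℕ → K → Prop}
    (h : ∀ X : ℕ → K, P (cl K X) ↔ ∀ᶠ n in (hf : Filter ℕ), Q n (X n)) :
    (∃ x, P x) ↔ ∀ᶠ n in (hf : Filter ℕ), ∃ x, Q n x := by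
  rw [ev_choice]
  constructor
  · rintro ⟨x, hx⟩
    obtain ⟨X, rfl⟩ := cl_surj x
    exact ⟨X, (h X).1 hx⟩
  · rintro ⟨X, hX⟩
    exact ⟨cl K X, (h X).2 hX⟩

/-- the universal quantifier -/
theorem los_all {P : UP K → Prop} {Q : ℕ → K → Prop}
    (h : ∀ X : ℕ → K, P (cl K X) ↔ ∀ᶠ n in (hf : Filter ℕ), Q n (X n)) :
    (∀ x, P x) ↔ ∀ᶠ n in (hf : Filter ℕ), ∀ x, Q n x := by
  have h1 : (∃ x, ¬ P x) ↔ ∀ᶠ n in (hf : Filter ℕ), ∃ x, ¬ Q n x :=
    los_ex fun X => by rw [h, ← Ultrafilter.eventually_not]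
  rw [← not_iff_not, not_forall, h1, ← Ultrafilter.eventually_not]
  simp only [not_forall]

theorem los (m : Mat) (π : List Qn) : ∀ S Z : ℕ → (ℕ → K),
    (Holds (diag K t) (DV (diag K t)) m π (fun i => cl K (S i)) (fun i => cl K (Z i)) ↔
      ∀ᶠ n in (hf : Filter ℕ), Holds t (DV t) m π (fun i => S i n) (fun i => Z i n)) := by
  induction π with
  | nil => exact fun S Z => los_mat t S Z m
  | cons q π ih =>
    intro S Z
    obtain ⟨k, i, b⟩ := q
    have kz : ∀ X : ℕ → K, (Holds (diag K t) (DV (diag K t)) m π (fun i => cl K (S i))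
        (Function.update (fun j => cl K (Z j)) i (cl K X)) ↔
        ∀ᶠ n in (hf : Filter ℕ), Holds t (DV t) m π (fun i => S i n)
          (Function.update (fun j => Z j n) i (X n))) := by
      intro X
      rw [upd_cl, ih]
      refine Filter.eventually_congr (Eventually.of_forall fun n => ?_)
      rw [upd_ev]
    have ks : ∀ X : ℕ → K, (Holds (diag K t) (DV (diag K t)) m π
        (Function.update (fun j => cl K (S j)) i (cl K X)) (fun i => cl K (Z i)) ↔
        ∀ᶠ n in (hf : Filter ℕ), Holds t (DV t) m π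
          (Function.update (fun j => S j n) i (X n)) (fun i => Z i n)) := by
      intro X
      rw [upd_cl, ih]
      refine Filter.eventually_congr (Eventually.of_forall fun n => ?_)
      rw [upd_ev]
    match k with
    | 0 => exact los_ex kz
    | 1 => exact los_all kz
    | 2 =>
      refine los_ex (P := fun x => Root _ _ i b x ∧ Holds _ _ m π (Function.update _ i x) _)
        (Q := fun n x => Root _ _ i b x ∧ Holds _ _ m π (Function.update _ i x) _) fun X => ?_
      rw [Filter.eventually_and, los_root, ks]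
    | k + 3 =>
      refine los_all (P := fun x => Root _ _ i b x → Holds _ _ m π (Function.update _ i x) _)
        (Q := fun n x => Root _ _ i b x → Holds _ _ m π (Function.update _ i x) _) fun X => ?_
      rw [Ultrafilter.eventually_imp, los_root, ks]

end Lo

/-- the ultrapower and the field satisfy the same formulas -/
theorem psol_up_iff {K : Type} [Field K] (t : K) (a : Inp) :
    PSol (diag K t) (DV (diag K t)) a ↔ PSol t (DV t) a := by
  obtain ⟨π, m⟩ := a
  have e0 : (fun _ : ℕ => (0 : UP K)) = fun i => cl K ((fun _ _ => 0 : ℕ → ℕ → K) i) := by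
    funext i
    exact (map_zero (cl K)).symm
  show (∃ x, Holds _ _ m π (Function.update (fun _ => 0) 0 x) fun _ => 0) ↔
    ∃ x, Holds _ _ m π (Function.update (fun _ => 0) 0 x) fun _ => 0
  rw [e0]
  have h1 := Lo.los_ex (K := K)
    (P := fun x => Holds (diag K t) (DV (diag K t)) m π
      (Function.update (fun i => cl K ((fun _ _ => 0 : ℕ → ℕ → K) i)) 0 x)
      (fun i => cl K ((fun _ _ => 0 : ℕ → ℕ → K) i)))
    (Q := fun _ x => Holds t (DV t) m π (Function.update (fun _ => 0) 0 x) fun _ => 0)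
    fun X => by
      rw [Lo.upd_cl, Lo.los]
      refine Filter.eventually_congr (Eventually.of_forall fun n => ?_)
      rw [Lo.upd_ev]
  rw [h1, Filter.eventually_const]

/-- FS-4: from the ultrapower to the field -/
theorem psol_up {K : Type} [Field K] (t : K) (a : Inp)
    (h : PSol (diag K t) (DV (diag K t)) a) : PSol t (DV t) a :=
  (psol_up_iff t a).1 h

end FS90
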