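import Pool.Agent.FS90.Step
import Pool.Agent.FS90.Los
import Pool.Agent.FS90.Emb
import Pool.Agent.FO90.Core

/-!
# Formulas have the same truth value in two models over a common field
-/

set_option maxSynthPendingDepth 10

namespace FS90

open FT80 BF80 LD90 NS90 FO90

namespace Cr

/-! ### Finitely many conditions determine the truth -/

section det

variable {p : ℕ} [hp : Fact p.Prime] {M1 M2 : Type} [Field M1] [Field M2] {σ1 : P1 p →+* M1}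
  {σ2 : P1 p →+* M2} (hM1 : MdlV p σ1) (hM2 : MdlV p σ2) {E : Type} [Field E] (e1 : E →+* M1)
  (e2 : E →+* M2) (D : ℕ) {V : Type} [AddCommGroup V] [Module E V] (one : V)

/-- the property holds for all maps which take values of the same types at finitely many vectors -/
def Det (P : (V →ₛₗ[e1] M1) → (V →ₛₗ[e2] M2) → Prop) : Prop :=
  ∃ (N m : ℕ) (Λ : Finset V), 1 ≤ N ∧ m ≠ 0 ∧ ∀ (ρ1 : V →ₛₗ[e1] M1) (ρ2 : V →ₛₗ[e2] M2),
    ρ1 one = 1 → ρ2 one = 1 → EqN hM1.toMdl hM2.toMdl D N m Λ ρ1 ρ2 → P ρ1 ρ2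

variable {hM1 hM2 e1 e2 D one}

theorem Det.mono {P Q : (V →ₛₗ[e1] M1) → (V →ₛₗ[e2] M2) → Prop}
    (h : Det hM1 hM2 e1 e2 D one P)
    (hPQ : ∀ ρ1 ρ2, ρ1 one = 1 → ρ2 one = 1 → P ρ1 ρ2 → Q ρ1 ρ2) :
    Det hM1 hM2 e1 e2 D one Q := by
  obtain ⟨N, m, Λ, hN, hm, h⟩ := h
  exact ⟨N, m, Λ, hN, hm, fun ρ1 ρ2 o1 o2 hg => hPQ ρ1 ρ2 o1 o2 (h ρ1 ρ2 o1 o2 hg)⟩

theorem Det.triv {P : (V →ₛₗ[e1] M1) → (V →ₛₗ[e2] M2) → Prop}
    (hP : ∀ ρ1 ρ2, ρ1 one = 1 → ρ2 one = 1 → P ρ1 ρ2) :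
    Det hM1 hM2 e1 e2 D one P :=
  ⟨1, 1, ∅, le_rfl, one_ne_zero, fun ρ1 ρ2 o1 o2 _ => hP ρ1 ρ2 o1 o2⟩

theorem Det.and {P Q : (V →ₛₗ[e1] M1) → (V →ₛₗ[e2] M2) → Prop}
    (h : Det hM1 hM2 e1 e2 D one P) (h' : Det hM1 hM2 e1 e2 D one Q) :
    Det hM1 hM2 e1 e2 D one (fun ρ1 ρ2 => P ρ1 ρ2 ∧ Q ρ1 ρ2) := by
  classical
  obtain ⟨N, m, Λ, hN, hm, h⟩ := h
  obtain ⟨N', m', Λ', hN', hm', h'⟩ := h'
  refine ⟨N + N', m * m', Λ ∪ Λ', by omega, mul_ne_zero hm hm', fun ρ1 ρ2 o1 o2 hg => ⟨?_, ?_⟩⟩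
  · exact h ρ1 ρ2 o1 o2 (hg.mono (by omega) (dvd_mul_right _ _) Finset.subset_union_left)
  · exact h' ρ1 ρ2 o1 o2 (hg.mono (by omega) (dvd_mul_left _ _) Finset.subset_union_right)

theorem Det.list {α : Type*} {P : α → (V →ₛₗ[e1] M1) → (V →ₛₗ[e2] M2) → Prop} (L : List α)
    (h : ∀ a ∈ L, Det hM1 hM2 e1 e2 D one (P a)) :
    Det hM1 hM2 e1 e2 D one (fun ρ1 ρ2 => ∀ a ∈ L, P a ρ1 ρ2) := by
  induction L with
  | nil => exact Det.triv fun _ _ _ _ a ha => absurd ha List.not_mem_nil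
  | cons a L ih =>
    refine ((h a List.mem_cons_self).and (ih fun b hb => h b (List.mem_cons_of_mem _ hb))).mono ?_
    rintro ρ1 ρ2 - - ⟨h1, h2⟩ b hb
    rcases List.mem_cons.1 hb with rfl | hb
    · exact h1
    · exact h2 b hb

end det

/-! ### Atomic conditions -/

section atoms

variable {p : ℕ} [hp : Fact p.Prime] {M1 M2 : Type} [Field M1] [Field M2] {σ1 : P1 p →+* M1}
  {σ2 : P1 p →+* M2} {E : Type} [Field E] {V : Type} [AddCommGroup V] [Module E V]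

/-- the first polynomial of the list -/
def hd : List PZ → PZ
  | [] => [([(0, [])], [])]
  | l :: _ => l

theorem pr_hd {R : Type*} [CommRing R] (t : R) (s z : ℕ → R) (L : List PZ) (hL : L.length ≤ 1) :
    pr t s z L = pv t s z (hd L) := by
  rcases L with _ | ⟨l, L⟩
  · simp [pr, hd, pv, ev]
  · rcases L with _ | ⟨l', L⟩
    · simp [pr, hd]
    · simp only [List.length_cons] at hL
      omega

theorem lin_hd {d : ℕ} (L : List PZ) (hL : ∀ l ∈ L, Lin d l) : Lin d (hd L) := by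
  rcases L with _ | ⟨l, L⟩
  · intro m hm
    simp only [hd, List.mem_singleton] at hm
    rw [hm]
    exact Nat.zero_le _
  · exact hL l List.mem_cons_self

/-- what is needed on the degrees -/
def DOk (p : ℕ) [Fact p.Prime] (D : ℕ) : Atm → Prop
  | (0, L, _, _) => ∀ l ∈ L, Lin 1 l
  | (1, L, L', _) => (∀ l ∈ L, Lin 1 l) ∧ ∀ l ∈ L', Lin 1 l
  | (2, L, _, F) => (∀ l ∈ L, Lin 1 l) ∧ ∃ d, d ∣ D ∧ (∀ m ∈ F, m.2.length = d) ∧
      (d ≤ 3 ∨ ¬ Sing (HahnSeries.single 1 1 : LaurentSeries (ZMod p)) F)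
  | (_ + 3, L, L', _) => (L.length ≤ 1 ∧ ∀ l ∈ L, Lin 1 l) ∧
      L'.length ≤ 1 ∧ ∀ l ∈ L', Lin (if p = 2 then 1 else 2) l

/-- there is a suitable number -/
theorem exists_D (m : Mat) (hm : ∀ c ∈ m, ∀ x ∈ c, Atm.Adm p x.2) :
    ∃ D, ¬ p ∣ D ∧ (p ≠ 2 → 2 ∣ D) ∧ ∀ c ∈ m, ∀ x ∈ c, DOk p D x.2 := by
  obtain ⟨D0, hD0, hD1⟩ := NS90.UpM.list_deg (p := p) (fun (x : Bool × Atm) d => DOk p d x.2)
    m.flatten (fun x hx => by
      obtain ⟨c, hc, hx⟩ := List.mem_flatten.1 hx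
      have h := hm c hc x hx
      obtain ⟨b, k, L, L', F⟩ := x
      rcases k with _ | _ | _ | k
      · exact ⟨1, hp.out.not_dvd_one, h⟩
      · exact ⟨1, hp.out.not_dvd_one, h⟩
      · obtain ⟨h1, d, h2, h3, h4⟩ := h
        exact ⟨d, h2, h1, d, dvd_rfl, h3, h4⟩
      · exact ⟨1, hp.out.not_dvd_one, h⟩)
  refine ⟨D0 * (if p = 2 then 1 else 2), fun h => ?_, fun h => ?_, fun c hc x hx => ?_⟩
  · rcases hp.out.dvd_mul.1 h with h | h
    · exact hD0 h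
    · split_ifs at h with h2
      · exact hp.out.not_dvd_one h
      · exact h2 ((Nat.prime_dvd_prime_iff_eq hp.out Nat.prime_two).1 h)
  · rw [if_neg h]
    exact dvd_mul_left _ _
  · obtain ⟨d, hd, -, h⟩ := hD1 x (List.mem_flatten.2 ⟨c, hc, hx⟩)
    obtain ⟨b, k, L, L', F⟩ := x
    rcases k with _ | _ | _ | k
    · exact h
    · exact h
    · obtain ⟨h1, d', h2, h3, h4⟩ := h
      exact ⟨h1, d', (h2.trans hd).trans (dvd_mul_right _ _), h3, h4⟩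
    · exact h

variable (hM1 : MdlV p σ1) (hM2 : MdlV p σ2) (e1 : E →+* M1)
  (e2 : E →+* M2) (te : E) (ht1 : e1 te = σ1 Polynomial.X) (ht2 : e2 te = σ2 Polynomial.X)

include ht1 ht2

/-- atomic conditions -/
theorem atm_iff [Infinite E] {D : ℕ} (hD : ¬ p ∣ D) (h2 : p ≠ 2 → 2 ∣ D)
    (hE : ∀ x : E, x ≠ 0 → Same σ1 σ2 D (e1 x) (e2 x))
    (hEv : ∀ x y : E, hM1.toMdl.fv (e1 x) ≤ hM1.toMdl.fv (e1 y) ↔
      hM2.toMdl.fv (e2 x) ≤ hM2.toMdl.fv (e2 y))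
    (s : ℕ → E) (one : V) (Z : ℕ → V) (x : Atm) (hx : DOk p D x) :
    Det hM1 hM2 e1 e2 D one fun ρ1 ρ2 =>
      (Atm.Holds (σ1 Polynomial.X) (DV (σ1 Polynomial.X)) (fun i => e1 (s i)) (fun i => ρ1 (Z i)) x ↔
        Atm.Holds (σ2 Polynomial.X) (DV (σ2 Polynomial.X)) (fun i => e2 (s i))
          (fun i => ρ2 (Z i)) x) := by
  classical
  have hlv : ∀ l : PZ, Lin 1 l → ∀ (ρ1 : V →ₛₗ[e1] M1) (ρ2 : V →ₛₗ[e2] M2),
      ρ1 one = 1 → ρ2 one = 1 →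
      pv (σ1 Polynomial.X) (fun i => e1 (s i)) (fun i => ρ1 (Z i)) l = ρ1 (Co.lv te s one Z l) ∧
      pv (σ2 Polynomial.X) (fun i => e2 (s i)) (fun i => ρ2 (Z i)) l =
        ρ2 (Co.lv te s one Z l) := by
    intro l hl ρ1 ρ2 h1 h2
    constructor
    · rw [← ht1]
      exact Co.pv_lv e1 te s one Z ρ1 h1 l hl
    · rw [← ht2]
      exact Co.pv_lv e2 te s one Z ρ2 h2 l hl
  have hpr : ∀ L : List PZ, (∀ l ∈ L, Lin 1 l) → ∀ (ρ1 : V →ₛₗ[e1] M1) (ρ2 : V →ₛₗ[e2] M2),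
      ρ1 one = 1 → ρ2 one = 1 →
      pr (σ1 Polynomial.X) (fun i => e1 (s i)) (fun i => ρ1 (Z i)) L =
        ((L.map (Co.lv te s one Z)).map ρ1).prod ∧
      pr (σ2 Polynomial.X) (fun i => e2 (s i)) (fun i => ρ2 (Z i)) L =
        ((L.map (Co.lv te s one Z)).map ρ2).prod := by
    intro L hL ρ1 ρ2 h1 h2
    constructor
    · rw [pr, List.map_map]
      congr 1
      exact List.map_congr_left fun l hl => (hlv l (hL l hl) ρ1 ρ2 h1 h2).1
    · rw [pr, List.map_map]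
      congr 1
      exact List.map_congr_left fun l hl => (hlv l (hL l hl) ρ1 ρ2 h1 h2).2
  have hcl : ∀ L : List V, ∀ (ρ1 : V →ₛₗ[e1] M1) (ρ2 : V →ₛₗ[e2] M2),
      (∀ v ∈ L, Cl σ1 σ2 D (ρ1 v) (ρ2 v)) → Cl σ1 σ2 D (L.map ρ1).prod (L.map ρ2).prod := by
    intro L ρ1 ρ2 h
    induction L with
    | nil =>
      right
      have h1 := Same.natCast (σ1 := σ1) (σ2 := σ2) (D := D) (c := 1) hp.out.not_dvd_one
      simpa using h1
    | cons v L ih =>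
      rw [List.map_cons, List.map_cons, List.prod_cons, List.prod_cons]
      exact (h v List.mem_cons_self).mul (ih fun w hw => h w (List.mem_cons_of_mem _ hw))
  have hcl2 : ∀ L : List PZ, (∀ l ∈ L, Lin 1 l) → Det hM1 hM2 e1 e2 D one fun ρ1 ρ2 =>
      Cl σ1 σ2 D (pr (σ1 Polynomial.X) (fun i => e1 (s i)) (fun i => ρ1 (Z i)) L)
        (pr (σ2 Polynomial.X) (fun i => e2 (s i)) (fun i => ρ2 (Z i)) L) := by
    intro L hL
    refine ⟨1, 1, (L.map (Co.lv te s one Z)).toFinset, le_rfl, one_ne_zero,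
      fun ρ1 ρ2 o1 o2 hg => ?_⟩
    obtain ⟨a1, a2⟩ := hpr L hL ρ1 ρ2 o1 o2
    rw [a1, a2]
    exact hcl _ ρ1 ρ2 fun v hv => (hg.1 v (List.mem_toFinset.2 hv)).1
  obtain ⟨k, L, L', F⟩ := x
  rcases k with _ | _ | _ | k
  · exact (hcl2 L hx).mono fun ρ1 ρ2 _ _ h => h.zero_iff hM1.toMdl hM2.toMdl
  · refine ⟨L.length + L'.length + 1, 1, (L.map (Co.lv te s one Z)).toFinset ∪
      (L'.map (Co.lv te s one Z)).toFinset, by omega, one_ne_zero, fun ρ1 ρ2 o1 o2 hg => ?_⟩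
    obtain ⟨a1, a2⟩ := hpr L hx.1 ρ1 ρ2 o1 o2
    obtain ⟨b1, b2⟩ := hpr L' hx.2 ρ1 ρ2 o1 o2
    show DV _ (pr _ _ _ L) (pr _ _ _ L') ↔ DV _ (pr _ _ _ L) (pr _ _ _ L')
    rw [hM1.toMdl.DV_iff, hM2.toMdl.DV_iff, a1, a2, b1, b2]
    refine hg.2 _ _ (fun v hv => Finset.mem_union_right _ (List.mem_toFinset.2 hv))
      (fun v hv => Finset.mem_union_left _ (List.mem_toFinset.2 hv)) ?_ ?_
    · rw [List.length_map]
      omega
    · rw [List.length_map]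
      omega
  · obtain ⟨hx1, d, hd, h3, h4⟩ := hx
    refine (hcl2 L hx1).mono fun ρ1 ρ2 _ _ h5 => ?_
    exact ⟨form_transfer hM1.toMdl hM2.toMdl hD F hd h3 h4 h5,
      form_transfer hM2.toMdl hM1.toMdl hD F hd h3 h4 h5.symm⟩
  · obtain ⟨⟨hL, hL1⟩, hL', hL1'⟩ := hx
    have hq : ∀ m ∈ hd L', m.2.length ≤ (if p = 2 then 1 else 2) := lin_hd L' hL1'
    obtain ⟨Λa, ha⟩ := q_transfer hM1.toMdl hM2.toMdl e1 e2 te ht1 ht2 hD h2 hE hEv one
      (Co.lv te s one Z (hd L)) s (hd L') hq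
    obtain ⟨Λb, hb⟩ := q_transfer hM2.toMdl hM1.toMdl e2 e1 te ht2 ht1 hD h2
      (fun x hx => (hE x hx).symm) (fun x y => (hEv x y).symm) one (Co.lv te s one Z (hd L)) s
      (hd L') hq
    refine ⟨1, 1, Λa ∪ Λb, le_rfl, one_ne_zero, fun ρ1 ρ2 o1 o2 hg => ?_⟩
    have hg1 := hg.eqv le_rfl
    obtain ⟨a1, a2⟩ := hlv (hd L) (lin_hd L hL1) ρ1 ρ2 o1 o2
    show (∃ y : ℕ → M1, pr _ _ _ L = pr _ _ _ L') ↔ (∃ y : ℕ → M2, pr _ _ _ L = pr _ _ _ L')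
    simp only [pr_hd _ _ _ L hL, pr_hd _ _ _ L' hL']
    rw [a1, a2]
    exact ⟨ha ρ1 ρ2 o1 o2 (hg1.mono Finset.subset_union_left),
      hb ρ2 ρ1 o2 o1 (hg1.mono Finset.subset_union_right).symm⟩

/-- quantifier-free formulas -/
theorem mat_iff [Infinite E] {D : ℕ} (hD : ¬ p ∣ D) (h2 : p ≠ 2 → 2 ∣ D)
    (hE : ∀ x : E, x ≠ 0 → Same σ1 σ2 D (e1 x) (e2 x))
    (hEv : ∀ x y : E, hM1.toMdl.fv (e1 x) ≤ hM1.toMdl.fv (e1 y) ↔
      hM2.toMdl.fv (e2 x) ≤ hM2.toMdl.fv (e2 y))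
    (s : ℕ → E) (one : V) (Z : ℕ → V) (m : Mat) (hm : ∀ c ∈ m, ∀ x ∈ c, DOk p D x.2) :
    Det hM1 hM2 e1 e2 D one fun ρ1 ρ2 =>
      (MHolds (σ1 Polynomial.X) (DV (σ1 Polynomial.X)) (fun i => e1 (s i)) (fun i => ρ1 (Z i)) m ↔
        MHolds (σ2 Polynomial.X) (DV (σ2 Polynomial.X)) (fun i => e2 (s i))
          (fun i => ρ2 (Z i)) m) := by
  have h := Det.list m.flatten fun x hx => by
    obtain ⟨c, hc, hx⟩ := List.mem_flatten.1 hx
    exact atm_iff hM1 hM2 e1 e2 te ht1 ht2 hD h2 hE hEv s one Z x.2 (hm c hc x hx)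
  refine h.mono fun ρ1 ρ2 _ _ h => ?_
  have h3 : ∀ c ∈ m, ∀ x ∈ c, _ := fun c hc x hx => h x (List.mem_flatten.2 ⟨c, hc, hx⟩)
  constructor
  · rintro ⟨c, hc, h⟩
    exact ⟨c, hc, fun x hx => (h x hx).trans (h3 c hc x hx)⟩
  · rintro ⟨c, hc, h⟩
    exact ⟨c, hc, fun x hx => (h x hx).trans (h3 c hc x hx).symm⟩

end atoms

/-! ### Roots -/

section roots

variable {E : Type} [Field E]

/-- the polynomial in the variable with index `i` -/
noncomputable def rP (te : E) (s : ℕ → E) (i : ℕ) (b : PL) : Polynomial E :=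
  ev (Polynomial.C te) (Function.update (fun j => Polynomial.C (s j)) i Polynomial.X) b

theorem rP_eval {L : Type} [Field L] (e : E →+* L) (te : E) (s : ℕ → E) (i : ℕ) (b : PL) (x : L) :
    ev (e te) (Function.update (fun j => e (s j)) i x) b = (rP te s i b).eval₂ e x := by
  have h1 := CB90.ev_map' (Polynomial.eval₂RingHom e x) (Polynomial.C te)
    (Function.update (fun j => Polynomial.C (s j)) i Polynomial.X) b
  rw [CB90.update_map] at h1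
  simp only [Polynomial.coe_eval₂RingHom, Polynomial.eval₂_C, Polynomial.eval₂_X] at h1
  exact h1

theorem root_iff [Infinite E] {L : Type} [Field L] (e : E →+* L) (te : E) (s : ℕ → E) (i : ℕ)
    (b : PL) (x : L) : Root (e te) (fun j => e (s j)) i b x ↔
      rP te s i b ≠ 0 ∧ (rP te s i b).eval₂ e x = 0 := by
  rw [Root, rP_eval]
  constructor
  · rintro ⟨h1, y, h2⟩
    refine ⟨fun h0 => h2 ?_, h1⟩
    rw [rP_eval, h0, Polynomial.eval₂_zero]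
  · rintro ⟨h1, h2⟩
    refine ⟨h2, ?_⟩
    have h3 : ∃ u : E, (rP te s i b).eval u ≠ 0 := by
      by_contra hcon
      apply h1
      apply Polynomial.funext
      intro u
      rw [Polynomial.eval_zero]
      by_contra hu
      exact hcon ⟨u, hu⟩
    obtain ⟨u, hu⟩ := h3
    refine ⟨e u, ?_⟩
    rw [rP_eval, Polynomial.eval₂_at_apply]
    exact (map_ne_zero e).2 hu

/-- the roots are the images of the roots in `E` -/
theorem root_iff' [Infinite E] {L : Type} [Field L] (e : E →+* L)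
    (hcl : ∀ P : Polynomial E, P ≠ 0 → ∀ y : L, P.eval₂ e y = 0 → ∃ u, e u = y) (te : E)
    (s : ℕ → E) (i : ℕ) (b : PL) (x : L) : Root (e te) (fun j => e (s j)) i b x ↔
      ∃ u ∈ (rP te s i b).roots.toList, e u = x := by
  rw [root_iff]
  constructor
  · rintro ⟨h1, h2⟩
    obtain ⟨u, rfl⟩ := hcl _ h1 x h2
    refine ⟨u, ?_, rfl⟩
    rw [Polynomial.eval₂_at_apply, map_eq_zero] at h2
    rw [Multiset.mem_toList]
    exact (Polynomial.mem_roots h1).2 h2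
  · rintro ⟨u, hu, rfl⟩
    rw [Multiset.mem_toList] at hu
    refine ⟨Polynomial.ne_zero_of_mem_roots hu, ?_⟩
    rw [Polynomial.eval₂_at_apply, (Polynomial.mem_roots'.1 hu).2, map_zero]

end roots

/-! ### Prenex formulas -/

section prenex

variable {p : ℕ} [hp : Fact p.Prime] {M1 M2 : Type} [Field M1] [Field M2] {σ1 : P1 p →+* M1}
  {σ2 : P1 p →+* M2} {E : Type} [Field E]
  (hM1 : MdlV p σ1) (hM2 : MdlV p σ2) (e1 : E →+* M1)
  (e2 : E →+* M2) (te : E) (ht1 : e1 te = σ1 Polynomial.X) (ht2 : e2 te = σ2 Polynomial.X)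

include ht1 ht2

/-- prenex formulas -/
theorem holds_iff [Infinite E] {D : ℕ} (hD : ¬ p ∣ D) (h2 : p ≠ 2 → 2 ∣ D)
    (hE : ∀ x : E, x ≠ 0 → Same σ1 σ2 D (e1 x) (e2 x))
    (hEv : ∀ x y : E, hM1.toMdl.fv (e1 x) ≤ hM1.toMdl.fv (e1 y) ↔
      hM2.toMdl.fv (e2 x) ≤ hM2.toMdl.fv (e2 y))
    (hEc : ∀ m : ℕ, m ≠ 0 → ∀ x : E, x ≠ 0 → VC hM1.toMdl hM2.toMdl m (e1 x) (e2 x))
    (hcl1 : ∀ P : Polynomial E, P ≠ 0 → ∀ y : M1, P.eval₂ e1 y = 0 → ∃ u, e1 u = y)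
    (hcl2 : ∀ P : Polynomial E, P ≠ 0 → ∀ y : M2, P.eval₂ e2 y = 0 → ∃ u, e2 u = y)
    (m : Mat) (hm : ∀ c ∈ m, ∀ x ∈ c, DOk p D x.2) (π : List Qn) :
    ∀ (V : Type) [AddCommGroup V] [Module E V] (one : V) (Z : ℕ → V) (s : ℕ → E),
    Det hM1 hM2 e1 e2 D one fun ρ1 ρ2 =>
      (Holds (σ1 Polynomial.X) (DV (σ1 Polynomial.X)) m π (fun i => e1 (s i))
          (fun i => ρ1 (Z i)) ↔
        Holds (σ2 Polynomial.X) (DV (σ2 Polynomial.X)) m π (fun i => e2 (s i))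
          (fun i => ρ2 (Z i))) := by
  classical
  induction π with
  | nil =>
    intro V _ _ one Z s
    exact mat_iff hM1 hM2 e1 e2 te ht1 ht2 hD h2 hE hEv s one Z m hm
  | cons x π ih =>
    intro V _ _ one Z s
    obtain ⟨k, i, b⟩ := x
    -- the quantifiers over the field
    have fld : Det hM1 hM2 e1 e2 D one fun ρ1 ρ2 =>
        ((∀ w1 : M1, ∃ w2 : M2,
          (Holds (σ1 Polynomial.X) (DV (σ1 Polynomial.X)) m π (fun i => e1 (s i))
              (Function.update (fun j => ρ1 (Z j)) i w1) ↔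
            Holds (σ2 Polynomial.X) (DV (σ2 Polynomial.X)) m π (fun i => e2 (s i))
              (Function.update (fun j => ρ2 (Z j)) i w2))) ∧
        ∀ w2 : M2, ∃ w1 : M1,
          (Holds (σ1 Polynomial.X) (DV (σ1 Polynomial.X)) m π (fun i => e1 (s i))
              (Function.update (fun j => ρ1 (Z j)) i w1) ↔
            Holds (σ2 Polynomial.X) (DV (σ2 Polynomial.X)) m π (fun i => e2 (s i))
              (Function.update (fun j => ρ2 (Z j)) i w2))) := by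
      obtain ⟨N, n, Λ, hN, hn, hΛ⟩ := ih (V × E) (one, 0)
        (Function.update (fun j => ((Z j, 0) : V × E)) i (0, 1)) s
      obtain ⟨Na, na, Λa, hNa, hna, ha⟩ := one_stepN hM1 hM2 e1 e2 te ht1 ht2 hD hE hEc N n hN hn
        one Λ
      obtain ⟨Nb, nb, Λb, hNb, hnb, hb⟩ := one_stepN hM2 hM1 e2 e1 te ht2 ht1 hD
        (fun x hx => (hE x hx).symm) (fun m hm x hx => (hEc m hm x hx).symm) N n hN hn one Λ
      refine ⟨Na + Nb, na * nb, Λa ∪ Λb, by omega, mul_ne_zero hna hnb,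
        fun ρ1 ρ2 o1 o2 hg => ?_⟩
      have o1' : ∀ w, ext e1 ρ1 w (one, 0) = 1 := fun w => by
        rw [ext_apply, map_zero, zero_mul, add_zero, o1]
      have o2' : ∀ w, ext e2 ρ2 w (one, 0) = 1 := fun w => by
        rw [ext_apply, map_zero, zero_mul, add_zero, o2]
      have key : ∀ w1 w2, EqN hM1.toMdl hM2.toMdl D N n Λ (ext e1 ρ1 w1) (ext e2 ρ2 w2) →
          (Holds (σ1 Polynomial.X) (DV (σ1 Polynomial.X)) m π (fun i => e1 (s i))
            (Function.update (fun j => ρ1 (Z j)) i w1) ↔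
          Holds (σ2 Polynomial.X) (DV (σ2 Polynomial.X)) m π (fun i => e2 (s i))
            (Function.update (fun j => ρ2 (Z j)) i w2)) := by
        intro w1 w2 h
        have h3 := hΛ _ _ (o1' w1) (o2' w2) h
        beta_reduce at h3
        rwa [Co.ext_update, Co.ext_update] at h3
      constructor
      · intro w1
        obtain ⟨w2, h⟩ := ha ρ1 ρ2 o1 o2
          (hg.mono (by omega) (dvd_mul_right _ _) Finset.subset_union_left) w1
        exact ⟨w2, key w1 w2 h⟩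
      · intro w2
        obtain ⟨w1, h⟩ := hb ρ2 ρ1 o2 o1
          (hg.mono (by omega) (dvd_mul_left _ _) Finset.subset_union_right).symm w2
        exact ⟨w1, key w1 w2 h.symm⟩
    -- the quantifiers over roots
    have rts : Det hM1 hM2 e1 e2 D one fun ρ1 ρ2 => ∀ u ∈ (rP te s i b).roots.toList,
        (Holds (σ1 Polynomial.X) (DV (σ1 Polynomial.X)) m π
            (Function.update (fun j => e1 (s j)) i (e1 u)) (fun i => ρ1 (Z i)) ↔
          Holds (σ2 Polynomial.X) (DV (σ2 Polynomial.X)) m π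
            (Function.update (fun j => e2 (s j)) i (e2 u)) (fun i => ρ2 (Z i))) := by
      refine Det.list _ fun u _ => ?_
      refine (ih V one Z (Function.update s i u)).mono fun ρ1 ρ2 _ _ h => ?_
      rw [CB90.update_map, CB90.update_map] at h
      exact h
    have r1 : ∀ x, Root (σ1 Polynomial.X) (fun j => e1 (s j)) i b x ↔
        ∃ u ∈ (rP te s i b).roots.toList, e1 u = x := by
      intro x
      rw [← ht1]
      exact root_iff' e1 hcl1 te s i b x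
    have r2 : ∀ x, Root (σ2 Polynomial.X) (fun j => e2 (s j)) i b x ↔
        ∃ u ∈ (rP te s i b).roots.toList, e2 u = x := by
      intro x
      rw [← ht2]
      exact root_iff' e2 hcl2 te s i b x
    rcases k with _ | _ | _ | k
    · refine fld.mono fun ρ1 ρ2 _ _ h => ⟨?_, ?_⟩
      · rintro ⟨w1, h1⟩
        obtain ⟨w2, h3⟩ := h.1 w1
        exact ⟨w2, h3.1 h1⟩
      · rintro ⟨w2, h1⟩
        obtain ⟨w1, h3⟩ := h.2 w2
        exact ⟨w1, h3.2 h1⟩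
    · refine fld.mono fun ρ1 ρ2 _ _ h => ⟨fun h1 w2 => ?_, fun h1 w1 => ?_⟩
      · obtain ⟨w1, h3⟩ := h.2 w2
        exact h3.1 (h1 w1)
      · obtain ⟨w2, h3⟩ := h.1 w1
        exact h3.2 (h1 w2)
    · refine rts.mono fun ρ1 ρ2 _ _ h => ⟨?_, ?_⟩
      · rintro ⟨x, hx, h1⟩
        obtain ⟨u, hu, rfl⟩ := (r1 x).1 hx
        exact ⟨e2 u, (r2 _).2 ⟨u, hu, rfl⟩, (h u hu).1 h1⟩
      · rintro ⟨x, hx, h1⟩
        obtain ⟨u, hu, rfl⟩ := (r2 x).1 hx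
        exact ⟨e1 u, (r1 _).2 ⟨u, hu, rfl⟩, (h u hu).2 h1⟩
    · refine rts.mono fun ρ1 ρ2 _ _ h => ⟨fun h1 x hx => ?_, fun h1 x hx => ?_⟩
      · obtain ⟨u, hu, rfl⟩ := (r2 x).1 hx
        exact (h u hu).1 (h1 _ ((r1 _).2 ⟨u, hu, rfl⟩))
      · obtain ⟨u, hu, rfl⟩ := (r1 x).1 hx
        exact (h u hu).2 (h1 _ ((r2 _).2 ⟨u, hu, rfl⟩))

/-- two models over a field -/
theorem transfer [Infinite E] {D : ℕ} (hD : ¬ p ∣ D) (h2 : p ≠ 2 → 2 ∣ D)
    (hE : ∀ x : E, x ≠ 0 → Same σ1 σ2 D (e1 x) (e2 x))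
    (hEv : ∀ x y : E, hM1.toMdl.fv (e1 x) ≤ hM1.toMdl.fv (e1 y) ↔
      hM2.toMdl.fv (e2 x) ≤ hM2.toMdl.fv (e2 y))
    (hEc : ∀ m : ℕ, m ≠ 0 → ∀ x : E, x ≠ 0 → VC hM1.toMdl hM2.toMdl m (e1 x) (e2 x))
    (hcl1 : ∀ P : Polynomial E, P ≠ 0 → ∀ y : M1, P.eval₂ e1 y = 0 → ∃ u, e1 u = y)
    (hcl2 : ∀ P : Polynomial E, P ≠ 0 → ∀ y : M2, P.eval₂ e2 y = 0 → ∃ u, e2 u = y)
    (m : Mat) (hm : ∀ c ∈ m, ∀ x ∈ c, DOk p D x.2) (π : List Qn) (s : ℕ → E) :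
    Holds (σ1 Polynomial.X) (DV (σ1 Polynomial.X)) m π (fun i => e1 (s i)) (fun _ => 0) ↔
      Holds (σ2 Polynomial.X) (DV (σ2 Polynomial.X)) m π (fun i => e2 (s i)) (fun _ => 0) := by
  obtain ⟨N, n, Λ, hN, hn, hΛ⟩ := holds_iff hM1 hM2 e1 e2 te ht1 ht2 hD h2 hE hEv hEc hcl1 hcl2 m
    hm π E 1 (fun _ => 0) s
  have h3 := hΛ e1.toSemilinearMap e2.toSemilinearMap (map_one e1) (map_one e2)
    ⟨fun x _ => ⟨?_, fun h0 => ?_⟩, fun a b _ _ _ _ => ?_⟩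
  · have z1 : (fun _ : ℕ => e1.toSemilinearMap (0 : E)) = fun _ => (0 : M1) :=
      funext fun _ => map_zero e1
    have z2 : (fun _ : ℕ => e2.toSemilinearMap (0 : E)) = fun _ => (0 : M2) :=
      funext fun _ => map_zero e2
    beta_reduce at h3
    rw [z1, z2] at h3
    exact h3
  · by_cases h0 : x = 0
    · left
      rw [h0]
      exact ⟨map_zero e1, map_zero e2⟩
    · exact Or.inr (hE x h0)
  · refine hEc n hn x fun h1 => h0 ?_
    rw [h1]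
    exact map_zero e1
  · have p1 : ∀ a : List E, (a.map e1.toSemilinearMap).prod = e1 a.prod := fun a =>
      (map_list_prod e1 a).symm
    have p2 : ∀ a : List E, (a.map e2.toSemilinearMap).prod = e2 a.prod := fun a =>
      (map_list_prod e2 a).symm
    rw [p1, p1, p2, p2]
    exact hEv _ _

end prenex

/-- from one model to the other -/
theorem psol_imp {p : ℕ} [Fact p.Prime] {M N : Type} [Field M] [Field N] {σ : P1 p →+* M}
    {τ : P1 p →+* N} (hM : MdlV p σ) (hN : MdlV p τ) (a : Inp) (ha : Adm p a)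
    (h : PSol (σ Polynomial.X) (DV (σ Polynomial.X)) a) :
    PSol (τ Polynomial.X) (DV (τ Polynomial.X)) a := by
  obtain ⟨π, m⟩ := a
  obtain ⟨x, h⟩ := h
  apply FS90.psol_up
  obtain ⟨D, hD, h2, hm⟩ := exists_D m ha
  obtain ⟨E, _, _, e1, e2, te, xe, ht1, ht2, rfl, hE, hEv, hEc, hcl1, hcl2⟩ := exists_E hM hN x
  refine ⟨e2 xe, ?_⟩
  have h3 := (transfer hM (mdlV_up hN) e1 e2 te ht1 ht2 hD h2 (hE D hD) hEv hEc hcl1 hcl2 m hm π
    (Function.update (fun _ => (0 : E)) 0 xe)).1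
  have e3 : (fun i => e1 (Function.update (fun _ => (0 : E)) 0 xe i)) =
      Function.update (fun _ => 0) 0 (e1 xe) := by
    rw [CB90.update_map]
    congr 1
    exact funext fun _ => map_zero e1
  have e4 : (fun i => e2 (Function.update (fun _ => (0 : E)) 0 xe i)) =
      Function.update (fun _ => 0) 0 (e2 xe) := by
    rw [CB90.update_map]
    congr 1
    exact funext fun _ => map_zero e2
  rw [e3, e4] at h3
  exact h3 h

/-- all models satisfy the same sentences -/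
theorem psol_iff {p : ℕ} [Fact p.Prime] {M N : Type} [Field M] [Field N] {σ : P1 p →+* M}
    {τ : P1 p →+* N} (hM : MdlV p σ) (hN : MdlV p τ) (a : Inp) (ha : Adm p a) :
    PSol (σ Polynomial.X) (DV (σ Polynomial.X)) a ↔
      PSol (τ Polynomial.X) (DV (τ Polynomial.X)) a :=
  ⟨psol_imp hM hN a ha, psol_imp hN hM a ha⟩

end Cr

end FS90
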