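import Pool.Agent.FS90.Ty

/-!
# Elements of the second model of a given class, value modulo `m`, and cut
-/

set_option maxSynthPendingDepth 10

namespace FS90

open FT80 BF80 FO90

section one

variable {p : ℕ} [hp : Fact p.Prime] {M : Type} [Field M] {σ : P1 p →+* M}

/-- values which agree up to `Q`-th powers and powers of `t` -/
theorem cut_dvd (hM : Mdl p σ) {Q : ℕ} (hQ : Q ≠ 0) {a b : ℕ} {x y : M} (hx : x ≠ 0)
    (hy : y ≠ 0) (h : hM.fv (σ Polynomial.X) ^ a * hM.fv x ^ Q =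
      hM.fv (σ Polynomial.X) ^ b * hM.fv y ^ Q) : ∃ e : ℤ, (b : ℤ) = a + Q * e := by
  have ht := hM.t_ne
  have ht0 : (0 : hM.VG) < hM.fv (σ Polynomial.X) := zero_lt_iff.2 ((Valuation.ne_zero_iff _).2 ht)
  have ht1 := hM.fv_t_lt
  have hx0 : hM.fv x ≠ 0 := (Valuation.ne_zero_iff _).2 hx
  have hy0 : hM.fv y ≠ 0 := (Valuation.ne_zero_iff _).2 hy
  have hQz : (Q : ℤ) ≠ 0 := by exact_mod_cast hQ
  have hQp : (0 : ℤ) < Q := by positivity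
  obtain ⟨q, hq⟩ : ∃ q : ℤ, q = ((b : ℤ) - a) / Q := ⟨_, rfl⟩
  obtain ⟨r, hr⟩ : ∃ r : ℕ, (r : ℤ) = ((b : ℤ) - a) % Q :=
    ⟨(((b : ℤ) - a) % Q).toNat, Int.toNat_of_nonneg (Int.emod_nonneg _ hQz)⟩
  have hrQ : (r : ℤ) < Q := hr ▸ Int.emod_lt_of_pos _ hQp
  have hab : (b : ℤ) - a = Q * q + r := by
    rw [hq, hr]
    exact (Int.mul_ediv_add_emod _ _).symm
  have h1 : hM.fv (x / y / σ Polynomial.X ^ q) ^ Q = hM.fv (σ Polynomial.X) ^ r := by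
    have h2 : hM.fv x ^ Q = hM.fv (σ Polynomial.X) ^ ((b : ℤ) - a) * hM.fv y ^ Q := by
      have h3 : hM.fv (σ Polynomial.X) ^ a ≠ 0 := pow_ne_zero _ ht0.ne'
      apply mul_left_cancel₀ h3
      rw [h, zpow_sub₀ ht0.ne', zpow_natCast, zpow_natCast]
      field_simp
    rw [map_div₀, map_div₀, map_zpow₀, div_pow, div_pow, h2, hab, zpow_add₀ ht0.ne', zpow_mul,
      zpow_natCast, zpow_natCast]
    rw [← zpow_natCast (hM.fv (σ Polynomial.X) ^ q) Q, ← zpow_mul, mul_comm q (Q : ℤ), zpow_mul,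
      zpow_natCast]
    have h4 : (hM.fv (σ Polynomial.X) ^ Q) ^ q ≠ 0 := zpow_ne_zero _ (pow_ne_zero _ ht0.ne')
    have h5 : hM.fv y ^ Q ≠ 0 := pow_ne_zero _ hy0
    field_simp
  refine ⟨q, ?_⟩
  rcases Nat.eq_zero_or_pos r with h0 | h0
  · rw [h0] at hab
    push_cast at hab
    linarith
  · exfalso
    have h2 : hM.fv (x / y / σ Polynomial.X ^ q) < 1 := by
      by_contra hcon
      have h3 : 1 ≤ hM.fv (x / y / σ Polynomial.X ^ q) ^ Q := one_le_pow₀ (not_lt.1 hcon)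
      rw [h1] at h3
      exact absurd (pow_lt_one₀ ht0.le ht1 h0.ne') (not_lt.2 h3)
    have h3 := hM.le_fv_t h2
    have h4 : hM.fv (x / y / σ Polynomial.X ^ q) ^ Q ≤ hM.fv (σ Polynomial.X) ^ Q :=
      pow_le_pow_left₀ zero_le h3 Q
    rw [h1] at h4
    have h5 : hM.fv (σ Polynomial.X) ^ Q < hM.fv (σ Polynomial.X) ^ r :=
      pow_lt_pow_right_of_lt_one₀ ht0 ht1 (by omega)
    exact absurd h4 (not_le.2 h5)

end one

section

variable {p : ℕ} [hp : Fact p.Prime] {M1 M2 : Type} [Field M1] [Field M2] {σ1 : P1 p →+* M1}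
  {σ2 : P1 p →+* M2}

/-- the normal form of an element modulo `D`-th powers, its value modulo `D m` -/
theorem cut_form (hM1 : MdlV p σ1) {D : ℕ} (hD : ¬ p ∣ D) {m : ℕ} (hm : m ≠ 0) (w : M1)
    (hw : w ≠ 0) : ∃ (γ i0 j : ℕ) (y y' : M1), 1 ≤ γ ∧ γ < p ∧ i0 + D * j < D * m ∧ y ≠ 0 ∧
      y' ≠ 0 ∧ w = γ * σ1 Polynomial.X ^ i0 * y ^ D ∧
      hM1.toMdl.fv w = hM1.toMdl.fv (σ1 Polynomial.X) ^ (i0 + D * j) *
        hM1.toMdl.fv y' ^ (D * m) := by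
  have hD0 : D ≠ 0 := fun h0 => hD (h0 ▸ dvd_zero p)
  obtain ⟨γ, hγ, i, hi, y, h1, h2⟩ := hM1.toMdl.pow D hD w hw
  have hy : y ≠ 0 := by
    rintro rfl
    rw [zero_pow hD0, mul_zero] at h2
    exact hw h2
  obtain ⟨j, hj, y', hy', h3⟩ := hM1.PD hm y hy
  refine ⟨γ, i, j, y, y', h1, hγ, ?_, hy, hy', h2, ?_⟩
  · calc i + D * j < D + D * j := by omega
      _ = D * (j + 1) := by ring
      _ ≤ D * m := Nat.mul_le_mul_left D hj
  · rw [h2, map_mul, map_mul, map_pow, map_pow, hM1.toMdl.fv_natCast h1 hγ, one_mul, h3, mul_pow,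
      ← pow_mul, ← pow_mul, ← mul_assoc, ← pow_add, mul_comm j D, mul_comm m D]

/-- the elements `γ t ^ i n ^ (D m)` are of the class of `w`, with the same value modulo `m` -/
theorem cut_class (hM1 : MdlV p σ1) (hM2 : MdlV p σ2) {D m : ℕ} {γ i0 j : ℕ} {w y y' : M1}
    (h1 : 1 ≤ γ) (h2 : γ < p) (hy : y ≠ 0) (hy' : y' ≠ 0)
    (hw : w = γ * σ1 Polynomial.X ^ i0 * y ^ D)
    (hfw : hM1.toMdl.fv w = hM1.toMdl.fv (σ1 Polynomial.X) ^ (i0 + D * j) *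
        hM1.toMdl.fv y' ^ (D * m)) {n : M2} (hn : n ≠ 0) :
    (γ * σ2 Polynomial.X ^ (i0 + D * j) * n ^ (D * m) : M2) ≠ 0 ∧
      Same σ1 σ2 D w (γ * σ2 Polynomial.X ^ (i0 + D * j) * n ^ (D * m)) ∧
      VC hM1.toMdl hM2.toMdl m w (γ * σ2 Polynomial.X ^ (i0 + D * j) * n ^ (D * m)) ∧
      hM2.toMdl.fv (γ * σ2 Polynomial.X ^ (i0 + D * j) * n ^ (D * m)) =
        hM2.toMdl.fv (σ2 Polynomial.X) ^ (i0 + D * j) * hM2.toMdl.fv n ^ (D * m) := by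
  have ht := hM2.toMdl.t_ne
  have hγ : ¬ p ∣ γ := fun h => absurd (Nat.le_of_dvd h1 h) (not_le.2 h2)
  have hγ0 := natCast_ne hM2.toMdl hγ
  have hfz : hM2.toMdl.fv (γ * σ2 Polynomial.X ^ (i0 + D * j) * n ^ (D * m)) =
      hM2.toMdl.fv (σ2 Polynomial.X) ^ (i0 + D * j) * hM2.toMdl.fv n ^ (D * m) := by
    rw [map_mul, map_mul, map_pow, map_pow, hM2.toMdl.fv_natCast h1 h2, one_mul]
  refine ⟨mul_ne_zero (mul_ne_zero hγ0 (pow_ne_zero _ ht)) (pow_ne_zero _ hn), ?_, ?_, hfz⟩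
  · refine ⟨γ, i0, y, σ2 Polynomial.X ^ j * n ^ m, hγ, hy,
      mul_ne_zero (pow_ne_zero _ ht) (pow_ne_zero _ hn), hw, ?_⟩
    rw [mul_pow, ← pow_mul, ← pow_mul, pow_add, mul_comm j D, mul_comm m D]
    ring
  · refine ⟨i0 + D * j, y' ^ D, n ^ D, pow_ne_zero _ hy', pow_ne_zero _ hn, ?_, ?_⟩
    · rw [hfw, map_pow, ← pow_mul]
    · rw [hfz, map_pow, ← pow_mul]

/-- FS-1: see the interface -/
theorem exists_cut (hM1 : MdlV p σ1) (hM2 : MdlV p σ2) {D : ℕ} (hD : ¬ p ∣ D) {m L : ℕ}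
    (hm : m ≠ 0) (hL : L ≠ 0) (w : M1) (hw : w ≠ 0) :
    (∀ u : M2, u ≠ 0 → ∃ z : M2, z ≠ 0 ∧ Same σ1 σ2 D w z ∧ VC hM1.toMdl hM2.toMdl m w z ∧
      hM2.toMdl.fv u < hM2.toMdl.fv (z ^ L) ∧
      hM2.toMdl.fv (σ2 Polynomial.X ^ (L * (D * m)) * z ^ L) ≤ hM2.toMdl.fv u) ∧
    ∀ (k : ℕ) (c1 : M1) (c2 : M2), c1 ≠ 0 → c2 ≠ 0 →
      VC hM1.toMdl hM2.toMdl (L * (D * m)) c1 c2 →
      hM1.toMdl.fv (σ1 Polynomial.X ^ k * w ^ L) = hM1.toMdl.fv c1 →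
      ∃ z : M2, z ≠ 0 ∧ Same σ1 σ2 D w z ∧ VC hM1.toMdl hM2.toMdl m w z ∧
        hM2.toMdl.fv (σ2 Polynomial.X ^ k * z ^ L) = hM2.toMdl.fv c2 := by
  have hD0 : D ≠ 0 := fun h0 => hD (h0 ▸ dvd_zero p)
  have ht := hM2.toMdl.t_ne
  have ht0 : (0 : hM2.toMdl.VG) < hM2.toMdl.fv (σ2 Polynomial.X) :=
    zero_lt_iff.2 ((Valuation.ne_zero_iff _).2 ht)
  have ht1 := hM2.toMdl.fv_t_lt
  have hQ : L * (D * m) ≠ 0 := mul_ne_zero hL (mul_ne_zero hD0 hm)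
  obtain ⟨γ, i0, j, y, y', h1, h2, hlt, hy, hy', hwe, hfw⟩ := cut_form hM1 hD hm w hw
  constructor
  · intro u hu
    obtain ⟨j', hj', x, hx, hux⟩ := hM2.PD hQ u hu
    have hx0 : (0 : hM2.toMdl.VG) < hM2.toMdl.fv x ^ (L * (D * m)) :=
      pow_pos (zero_lt_iff.2 ((Valuation.ne_zero_iff _).2 hx)) _
    have hlt2 : (i0 + D * j) * L < L * (D * m) := by
      rw [mul_comm]
      exact Nat.mul_lt_mul_of_pos_left hlt (Nat.pos_of_ne_zero hL)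
    by_cases hc : (i0 + D * j) * L < j'
    · obtain ⟨z0, z1, z2, z3⟩ := cut_class hM1 hM2 h1 h2 hy hy' hwe hfw hx
      refine ⟨_, z0, z1, z2, ?_, ?_⟩
      · rw [map_pow, z3, hux, mul_pow, ← pow_mul, ← pow_mul, mul_comm (D * m) L]
        exact mul_lt_mul_of_pos_right (pow_lt_pow_right_of_lt_one₀ ht0 ht1 hc) hx0
      · rw [map_mul, map_pow, map_pow, z3, hux, mul_pow, ← pow_mul, ← pow_mul, mul_comm (D * m) L,
          ← mul_assoc, ← pow_add]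
        exact mul_le_mul_left (pow_le_pow_of_le_one ht0.le ht1.le (by omega)) _
    · have hxt : x / σ2 Polynomial.X ≠ 0 := div_ne_zero hx ht
      obtain ⟨z0, z1, z2, z3⟩ := cut_class hM1 hM2 h1 h2 hy hy' hwe hfw hxt
      have htQ : (0 : hM2.toMdl.VG) < hM2.toMdl.fv (σ2 Polynomial.X) ^ (L * (D * m)) :=
        pow_pos ht0 _
      refine ⟨_, z0, z1, z2, ?_, ?_⟩
      · rw [map_pow, z3, hux, mul_pow, ← pow_mul, ← pow_mul, mul_comm (D * m) L, map_div₀, div_pow,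
          mul_div_assoc', mul_comm _ (hM2.toMdl.fv x ^ (L * (D * m))),
          mul_comm _ (hM2.toMdl.fv x ^ (L * (D * m))), mul_div_assoc]
        refine mul_lt_mul_of_pos_left ?_ hx0
        rw [lt_div_iff₀ htQ, ← pow_add]
        exact pow_lt_pow_right_of_lt_one₀ ht0 ht1 (by omega)
      · rw [map_mul, map_pow, map_pow, z3, hux, mul_pow, ← pow_mul, ← pow_mul, mul_comm (D * m) L,
          map_div₀, div_pow]
        have h6 : hM2.toMdl.fv (σ2 Polynomial.X) ^ (L * (D * m)) *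
            (hM2.toMdl.fv (σ2 Polynomial.X) ^ ((i0 + D * j) * L) *
              (hM2.toMdl.fv x ^ (L * (D * m)) /
                hM2.toMdl.fv (σ2 Polynomial.X) ^ (L * (D * m)))) =
            hM2.toMdl.fv (σ2 Polynomial.X) ^ ((i0 + D * j) * L) *
              hM2.toMdl.fv x ^ (L * (D * m)) := by
          rw [mul_left_comm, mul_div_cancel₀ _ htQ.ne']
        rw [h6]
        exact mul_le_mul_left (pow_le_pow_of_le_one ht0.le ht1.le (by omega)) _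
  · intro k c1 c2 hc1 hc2 hV he
    obtain ⟨i', a, b, ha, hb, hfa, hfb⟩ := hV
    have h3 : hM1.toMdl.fv (σ1 Polynomial.X) ^ (k + (i0 + D * j) * L) *
        hM1.toMdl.fv y' ^ (L * (D * m)) =
        hM1.toMdl.fv (σ1 Polynomial.X) ^ i' * hM1.toMdl.fv a ^ (L * (D * m)) := by
      rw [← hfa, ← he, map_mul, map_pow, map_pow, hfw, mul_pow, ← pow_mul, ← pow_mul,
        mul_comm (D * m) L, pow_add _ k,
        mul_assoc (hM1.toMdl.fv (σ1 Polynomial.X) ^ k)]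
    obtain ⟨e, he'⟩ := cut_dvd hM1.toMdl hQ hy' ha h3
    have hn : σ2 Polynomial.X ^ e * b ≠ 0 := mul_ne_zero (zpow_ne_zero _ ht) hb
    obtain ⟨z0, z1, z2, z3⟩ := cut_class hM1 hM2 h1 h2 hy hy' hwe hfw hn
    refine ⟨_, z0, z1, z2, ?_⟩
    rw [map_mul, map_pow, map_pow, z3, hfb, mul_pow, ← pow_mul, ← pow_mul, mul_comm (D * m) L,
      ← mul_assoc, ← pow_add, map_mul, map_zpow₀, mul_pow, ← mul_assoc]
    congr 1
    rw [← zpow_natCast (_ ^ e), ← zpow_natCast, ← zpow_natCast, ← zpow_mul, ← zpow_add₀ ht0.ne']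
    congr 1
    rw [he']
    push_cast
    ring

end

end FS90
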