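import Pool.Agent.NS90.Defs

/-!
# First-order conditions with affine polynomials over curves: definitions

The base variables are `s_0, s_1, …`, the auxiliary variables are `z_0, z_1, …`; polynomials over
`F_p[t]` in the base variables (`LD90.PL`, values `LD90.ev`) and polynomials in the auxiliary
variables with such coefficients (`NS90.PZ`, values `NS90.pv`) are lists of monomials.
-/

namespace FS90

open LD90 NS90

/-- the product of the values of the polynomials in the list -/
def pr {R : Type*} [CommRing R] (t : R) (s z : ℕ → R) (L : List PZ) : R := (L.map (pv t s z)).prod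

/-- atomic conditions `(k, L, L', F)` -/
abbrev Atm := ℕ × List PZ × List PZ × PL

/-- truth of an atomic condition `(k, L, L', F)` at `(s, z)`. For `k = 0`: the product over `L`
is `0`. For `k = 1`: the product over `L` divides the product over `L'`, where divisibility is read
by the relation `r`. For `k = 2`: the product over `L` is a value of the form `F`. For `k ≥ 3`: the
product over `L` is a value of the product over `L'`, with new values `x` of the auxiliary
variables -/
def Atm.Holds {R : Type*} [CommRing R] (t : R) (r : R → R → Prop) (s z : ℕ → R) : Atm → Prop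
  | (0, L, _, _) => pr t s z L = 0
  | (1, L, L', _) => r (pr t s z L) (pr t s z L')
  | (2, L, _, F) => ∃ y : ℕ → R, pr t s z L = ev t y F
  | (_ + 3, L, L', _) => ∃ x : ℕ → R, pr t s z L = pr t s x L'

/-- the degree in the auxiliary variables is at most `d` -/
def Lin (d : ℕ) (l : PZ) : Prop := ∀ m ∈ l, m.2.length ≤ d

/-- the restrictions: the polynomials in `L` (and `L'` for `k = 1`) are of degree at most `1` in the
auxiliary variables; `F` is as in `NS90.Form`; for `k ≥ 3`, `L` and `L'` have at most one member,
and that of `L'` is of degree at most `2` (at most `1` if `p = 2`) -/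
def Atm.Adm (p : ℕ) [Fact p.Prime] : Atm → Prop
  | (0, L, _, _) => ∀ l ∈ L, Lin 1 l
  | (1, L, L', _) => (∀ l ∈ L, Lin 1 l) ∧ ∀ l ∈ L', Lin 1 l
  | (2, L, _, F) => (∀ l ∈ L, Lin 1 l) ∧ Form p F
  | (_ + 3, L, L', _) => (L.length ≤ 1 ∧ ∀ l ∈ L, Lin 1 l) ∧
      L'.length ≤ 1 ∧ ∀ l ∈ L', Lin (if p = 2 then 1 else 2) l

/-- quantifier-free formulas in disjunctive normal form: the pair `(true, A)` stands for `A`, the
pair `(false, A)` for its negation -/
abbrev Mat := List (List (Bool × Atm))

/-- truth of a quantifier-free formula -/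
def MHolds {R : Type*} [CommRing R] (t : R) (r : R → R → Prop) (s z : ℕ → R) (m : Mat) : Prop :=
  ∃ c ∈ m, ∀ x ∈ c, (x.1 = true ↔ Atm.Holds t r s z x.2)

/-- `x` is a root of `b(s_0, …, s_(i-1), ·, s_(i+1), …)`, which is not identically `0` -/
def Root {R : Type*} [CommRing R] (t : R) (s : ℕ → R) (i : ℕ) (b : PL) (x : R) : Prop :=
  ev t (Function.update s i x) b = 0 ∧ ∃ y, ev t (Function.update s i y) b ≠ 0

/-- quantifiers `(k, i, b)` -/
abbrev Qn := ℕ × ℕ × PL

/-- truth of a prenex formula at `(s, z)`; the quantifiers are, for `k = 0`, `∃ z_i`; for `k = 1`,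
`∀ z_i`; for `k = 2`, `∃ s_i` over the roots of `b`; for `k ≥ 3`, `∀ s_i` over the roots of `b` -/
def Holds {R : Type*} [CommRing R] (t : R) (r : R → R → Prop) (m : Mat) :
    List Qn → (ℕ → R) → (ℕ → R) → Prop
  | [], s, z => MHolds t r s z m
  | (0, i, _) :: π, s, z => ∃ x : R, Holds t r m π s (Function.update z i x)
  | (1, i, _) :: π, s, z => ∀ x : R, Holds t r m π s (Function.update z i x)
  | (2, i, b) :: π, s, z => ∃ x : R, Root t s i b x ∧ Holds t r m π (Function.update s i x) z
  | (_ + 3, i, b) :: π, s, z => ∀ x : R, Root t s i b x → Holds t r m π (Function.update s i x) z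

/-- inputs: a prefix and a quantifier-free formula -/
abbrev Inp := List Qn × Mat

/-- the conditions on inputs -/
def Adm (p : ℕ) [Fact p.Prime] : Inp → Prop
  | (_, m) => ∀ c ∈ m, ∀ x ∈ c, Atm.Adm p x.2

/-- the prenex formula holds for some `s_0` (the other free variables are read as `0`) -/
def PSol {R : Type*} [CommRing R] (t : R) (r : R → R → Prop) : Inp → Prop
  | (π, m) => ∃ x : R, Holds t r m π (Function.update (fun _ => 0) 0 x) fun _ => 0

end FS90
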