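import Pool.Agent.FS90.Core
import Pool.Agent.FS90.Dec

/-!
# The decision procedure
-/

set_option maxSynthPendingDepth 10

namespace FS90

open FT80 BF80 LD90 NS90

/-- the decision procedure -/
theorem main (p : ℕ) [Fact p.Prime] :
    ∃ D : Inp → Bool, Computable D ∧ ∀ a : Inp, Adm p a → (D a = true ↔
      PSol (HahnSeries.single 1 1 : LaurentSeries (ZMod p))
        (fun x y => ∃ c : PowerSeries (ZMod p), (c : LaurentSeries (ZMod p)) * x = y) a) :=
  decide_psol_of p
    (fun _ _ _ hM F d hF => (sing_k0 hM F d hF).trans (sing_k0 mdl_KK F d hF).symm)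
    (fun _ _ _ hM a ha => Cr.psol_iff hM mdlV_KK a ha)

end FS90
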