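import Mathlib

/-!
# Cuts in discrete ordered groups
-/

namespace FS90

section core

variable {Γ1 Γ2 : Type*} [LinearOrderedCommGroupWithZero Γ1] [LinearOrderedCommGroupWithZero Γ2]

/-- discreteness -/
theorem gap0 {t u W : Γ1} (ht : 0 < t) (hmax : ∀ x : Γ1, x < 1 → x ≤ t) (hW : 0 < W) {Q : ℕ}
    (hne : ∀ k ≤ Q, t ^ k * W ≠ u) (h : u < W) : u < t ^ Q * W := by
  have key : ∀ k ≤ Q, u < t ^ k * W := by
    intro k
    induction k with
    | zero =>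
      intro _
      rw [pow_zero, one_mul]
      exact h
    | succ k ih =>
      intro hk
      have h1 := ih (by omega)
      have h0 : 0 < t ^ k * W := mul_pos (pow_pos ht k) hW
      have h2 : u / (t ^ k * W) < 1 := (div_lt_one₀ h0).2 h1
      have h3 := (div_le_iff₀ h0).1 (hmax _ h2)
      have h4 : u ≤ t ^ (k + 1) * W := by
        rw [pow_succ', mul_assoc]
        exact h3
      exact lt_of_le_of_ne h4 (hne (k + 1) hk).symm
  exact key Q le_rfl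

/-- an element of the second group in the same position as `W` -/
theorem cut_core {t1 : Γ1} {t2 : Γ2} (h01 : 0 < t1) (h02 : 0 < t2) (h2 : t2 < 1)
    (hmax : ∀ x : Γ1, x < 1 → x ≤ t1) {T : Type*} (S : Set T) (hS : S.Finite) (u1 : T → Γ1)
    (u2 : T → Γ2) (hpos : ∀ c ∈ S, 0 < u2 c) (Q : ℕ)
    (cmp : ∀ k ≤ Q, ∀ c ∈ S, ∀ d ∈ S, (t1 ^ k * u1 c ≤ u1 d ↔ t2 ^ k * u2 c ≤ u2 d) ∧
      (u1 c ≤ t1 ^ k * u1 d ↔ u2 c ≤ t2 ^ k * u2 d)) (W : Γ1) (hW : 0 < W) (Z : Γ2 → Prop)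
    (hZ1 : ∀ u : Γ2, 0 < u → ∃ z, Z z ∧ u < z ∧ t2 ^ Q * z ≤ u)
    (hZ2 : ∀ k, ∀ c ∈ S, t1 ^ k * W = u1 c → ∃ z, Z z ∧ t2 ^ k * z = u2 c) :
    ∃ z, Z z ∧ ∀ c ∈ S, (u1 c ≤ W ↔ u2 c ≤ z) ∧ (W ≤ u1 c ↔ z ≤ u2 c) := by
  have ct : ∀ c ∈ S, ∀ d ∈ S, (u1 c ≤ u1 d ↔ u2 c ≤ u2 d) := by
    intro c hc d hd
    have := (cmp 0 (Nat.zero_le _) c hc d hd).1
    rwa [pow_zero, pow_zero, one_mul, one_mul] at this
  by_cases hA : ∃ k ≤ Q, ∃ c ∈ S, t1 ^ k * W = u1 c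
  · obtain ⟨k, hk, c, hc, hkc⟩ := hA
    obtain ⟨z, hz, hzk⟩ := hZ2 k c hc hkc
    refine ⟨z, hz, fun d hd => ?_⟩
    have hp1 : 0 < t1 ^ k := pow_pos h01 k
    have hp2 : 0 < t2 ^ k := pow_pos h02 k
    have e1 := (cmp k hk d hd c hc).1
    have e2 := (cmp k hk c hc d hd).2
    rw [← hkc, ← hzk, mul_le_mul_iff_right₀ hp1, mul_le_mul_iff_right₀ hp2] at e1 e2
    exact ⟨e1, e2⟩
  · push Not at hA
    by_cases hB : ∃ c ∈ S, u1 c < W
    · obtain ⟨c, ⟨hc, hcW⟩, hcm⟩ := Set.exists_max_image {c | c ∈ S ∧ u1 c < W} u1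
        (hS.subset fun c hc => hc.1) (by
          obtain ⟨c, hc, hcW⟩ := hB
          exact ⟨c, hc, hcW⟩)
      obtain ⟨z, hz, hz1, hz2⟩ := hZ1 (u2 c) (hpos c hc)
      refine ⟨z, hz, fun d hd => ?_⟩
      rcases lt_trichotomy (u1 d) W with h | h | h
      · have h3 : u2 d ≤ u2 c := (ct d hd c hc).1 (hcm d ⟨hd, h⟩)
        have h4 : u2 d < z := lt_of_le_of_lt h3 hz1
        exact ⟨⟨fun _ => h4.le, fun _ => h.le⟩,
          ⟨fun h' => absurd h (not_lt.2 h'), fun h' => absurd h4 (not_lt.2 h')⟩⟩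
      · exact absurd (by rw [pow_zero, one_mul, h]) (hA 0 (Nat.zero_le _) d hd)
      · have h3 : u1 c < t1 ^ Q * W := gap0 h01 hmax hW (fun k hk => hA k hk c hc) hcW
        have h4 : u1 c < t1 ^ Q * u1 d :=
          lt_trans h3 ((mul_lt_mul_iff_right₀ (pow_pos h01 Q)).2 h)
        have h5 : u2 c < t2 ^ Q * u2 d := by
          rw [← not_le, ← (cmp Q le_rfl d hd c hc).1, not_le]
          exact h4
        have h6 : z < u2 d := by
          have := lt_of_le_of_lt hz2 h5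
          exact (mul_lt_mul_iff_right₀ (pow_pos h02 Q)).1 this
        exact ⟨⟨fun h' => absurd h (not_lt.2 h'), fun h' => absurd h6 (not_lt.2 h')⟩,
          ⟨fun _ => h6.le, fun _ => h.le⟩⟩
    · push Not at hB
      have hB' : ∀ c ∈ S, W < u1 c := by
        intro c hc
        refine lt_of_le_of_ne (hB c hc) ?_
        have := hA 0 (Nat.zero_le _) c hc
        rwa [pow_zero, one_mul] at this
      rcases S.eq_empty_or_nonempty with rfl | hne
      · obtain ⟨z, hz, -⟩ := hZ1 1 one_pos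
        exact ⟨z, hz, fun c hc => absurd hc (Set.notMem_empty c)⟩
      · obtain ⟨c, hc, hcm⟩ := Set.exists_min_image S u1 hS hne
        have hp : 0 < t2 ^ (Q + 1) * u2 c := mul_pos (pow_pos h02 _) (hpos c hc)
        obtain ⟨z, hz, hz1, hz2⟩ := hZ1 _ hp
        refine ⟨z, hz, fun d hd => ?_⟩
        have h3 : z ≤ t2 * u2 c := by
          rw [pow_succ, mul_assoc] at hz2
          exact (mul_le_mul_iff_right₀ (pow_pos h02 Q)).1 hz2
        have h4 : t2 * u2 c < u2 c := by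
          have := (mul_lt_mul_iff_left₀ (hpos c hc)).2 h2
          rwa [one_mul] at this
        have h5 : z < u2 d := lt_of_lt_of_le (lt_of_le_of_lt h3 h4) ((ct c hc d hd).1 (hcm d hd))
        have h := hB' d hd
        exact ⟨⟨fun h' => absurd h (not_lt.2 h'), fun h' => absurd h5 (not_lt.2 h')⟩,
          ⟨fun _ => h5.le, fun _ => h.le⟩⟩

end core

end FS90
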