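import Pool.Agent.FS90.Ty
import Pool.Agent.FS90.PresC
import Pool.Agent.FS90.Cut

/-!
# An element of the second model in the same position with respect to products
-/

set_option maxSynthPendingDepth 10

namespace FS90

open FT80 BF80 FO90

namespace Pr

section

variable {p : ℕ} [hp : Fact p.Prime] {M1 M2 : Type} [Field M1] [Field M2] {σ1 : P1 p →+* M1}
  {σ2 : P1 p →+* M2} {hM1 : Mdl p σ1} {hM2 : Mdl p σ2}

theorem VC_one {m : ℕ} : VC hM1 hM2 m 1 1 :=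
  ⟨0, 1, 1, one_ne_zero, one_ne_zero, by simp, by simp⟩

theorem VC_pow {m : ℕ} {a : M1} {b : M2} (h : VC hM1 hM2 m a b) (k : ℕ) :
    VC hM1 hM2 m (a ^ k) (b ^ k) := by
  induction k with
  | zero =>
    rw [pow_zero, pow_zero]
    exact VC_one
  | succ k ih =>
    rw [pow_succ, pow_succ]
    exact ih.mul h

theorem inv_aux {M : Type} [Field M] {σ : P1 p →+* M} (hM : Mdl p σ) {m i : ℕ} (hm : m ≠ 0)
    {a x : M} (h : hM.fv a = hM.fv (σ Polynomial.X) ^ i * hM.fv x ^ m) :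
    hM.fv a⁻¹ = hM.fv (σ Polynomial.X) ^ (i * (m - 1)) * hM.fv (x⁻¹ * (σ Polynomial.X ^ i)⁻¹) ^ m := by
  have ht : hM.fv (σ Polynomial.X) ≠ 0 := (Valuation.ne_zero_iff _).2 hM.t_ne
  obtain ⟨k, rfl⟩ : ∃ k, m = k + 1 := ⟨m - 1, by omega⟩
  have h1 : hM.fv (σ Polynomial.X) ^ (i * k) ≠ 0 := pow_ne_zero _ ht
  rw [map_inv₀, h, map_mul, map_inv₀, map_inv₀, map_pow, Nat.add_sub_cancel, mul_pow, inv_pow,
    inv_pow, mul_inv, ← pow_mul]
  have h2 : hM.fv (σ Polynomial.X) ^ (i * (k + 1)) =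
      hM.fv (σ Polynomial.X) ^ (i * k) * hM.fv (σ Polynomial.X) ^ i := by
    rw [mul_add, mul_one, pow_add]
  rw [h2, mul_inv (hM.fv (σ Polynomial.X) ^ (i * k)), mul_left_comm ((hM.fv x ^ (k + 1))⁻¹),
    ← mul_assoc (hM.fv (σ Polynomial.X) ^ (i * k)), mul_inv_cancel₀ h1, one_mul, mul_comm]

theorem VC_inv {m : ℕ} (hm : m ≠ 0) {a : M1} {b : M2} (h : VC hM1 hM2 m a b) :
    VC hM1 hM2 m a⁻¹ b⁻¹ := by
  obtain ⟨i, x, y, hx, hy, h1, h2⟩ := h
  exact ⟨i * (m - 1), x⁻¹ * (σ1 Polynomial.X ^ i)⁻¹, y⁻¹ * (σ2 Polynomial.X ^ i)⁻¹,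
    mul_ne_zero (inv_ne_zero hx) (inv_ne_zero (pow_ne_zero _ hM1.t_ne)),
    mul_ne_zero (inv_ne_zero hy) (inv_ne_zero (pow_ne_zero _ hM2.t_ne)),
    inv_aux hM1 hm h1, inv_aux hM2 hm h2⟩

variable {D N m : ℕ} {ι : Type} {I : Finset ι} {f1 : ι → M1} {f2 : ι → M2}

theorem prod_zero (h : EqN hM1 hM2 D N m I f1 f2) {a : List ι} (ha : ∀ i ∈ a, i ∈ I) :
    (a.map f1).prod = 0 ↔ (a.map f2).prod = 0 := by
  rw [List.prod_eq_zero_iff, List.prod_eq_zero_iff, List.mem_map, List.mem_map]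
  refine exists_congr fun i => and_congr_right fun hi => ?_
  exact (h.1 i (ha i hi)).1.zero_iff hM1 hM2

theorem prod_vc (h : EqN hM1 hM2 D N m I f1 f2) {a : List ι} (ha : ∀ i ∈ a, i ∈ I)
    (h0 : (a.map f1).prod ≠ 0) : VC hM1 hM2 m (a.map f1).prod (a.map f2).prod := by
  induction a with
  | nil => exact VC_one
  | cons i a ih =>
    rw [List.map_cons, List.prod_cons] at h0 ⊢
    rw [List.map_cons, List.prod_cons]
    have h1 := left_ne_zero_of_mul h0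
    have h2 := right_ne_zero_of_mul h0
    exact ((h.1 i (ha i List.mem_cons_self)).2 h1).mul
      (ih (fun j hj => ha j (List.mem_cons_of_mem _ hj)) h2)

/-- repetition -/
def rep (k : ℕ) (a : List ι) : List ι := (List.replicate k a).flatten

theorem rep_mem {k : ℕ} {a : List ι} (ha : ∀ i ∈ a, i ∈ I) : ∀ i ∈ rep k a, i ∈ I := by
  intro i hi
  unfold rep at hi
  rw [List.mem_flatten] at hi
  obtain ⟨l, hl, hil⟩ := hi
  rw [List.eq_of_mem_replicate hl] at hil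
  exact ha i hil

theorem rep_length (k : ℕ) (a : List ι) : (rep k a).length = k * a.length := by
  unfold rep
  rw [List.length_flatten, List.map_replicate, List.sum_replicate, smul_eq_mul]

theorem rep_prod {M : Type} [Field M] (f : ι → M) (k : ℕ) (a : List ι) :
    ((rep k a).map f).prod = (a.map f).prod ^ k := by
  unfold rep
  rw [List.map_flatten, List.map_replicate, List.prod_flatten, List.map_replicate,
    List.prod_replicate]

/-- comparison of quotients of products -/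
theorem quot_le (h : EqN hM1 hM2 D N m I f1 f2) {τ : ι} (hτ : τ ∈ I)
    (h1 : f1 τ = σ1 Polynomial.X) (h2 : f2 τ = σ2 Polynomial.X) {a b c d : List ι}
    (ha : ∀ i ∈ a, i ∈ I) (hb : ∀ i ∈ b, i ∈ I) (hc : ∀ i ∈ c, i ∈ I) (hd : ∀ i ∈ d, i ∈ I)
    (ha0 : (a.map f1).prod ≠ 0) (hc0 : (c.map f1).prod ≠ 0) {k l r s n : ℕ}
    (hal : a.length ≤ n) (hbl : b.length ≤ n) (hcl : c.length ≤ n) (hdl : d.length ≤ n)
    (hN : k + l + r * n + s * n ≤ N) :
    hM1.fv (σ1 Polynomial.X) ^ k * hM1.fv ((b.map f1).prod / (a.map f1).prod) ^ r ≤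
        hM1.fv (σ1 Polynomial.X) ^ l * hM1.fv ((d.map f1).prod / (c.map f1).prod) ^ s ↔
      hM2.fv (σ2 Polynomial.X) ^ k * hM2.fv ((b.map f2).prod / (a.map f2).prod) ^ r ≤
        hM2.fv (σ2 Polynomial.X) ^ l * hM2.fv ((d.map f2).prod / (c.map f2).prod) ^ s := by
  have key : ∀ {M : Type} [Field M] {σ : P1 p →+* M} (hM : Mdl p σ) (f : ι → M),
      f τ = σ Polynomial.X → (a.map f).prod ≠ 0 → (c.map f).prod ≠ 0 →
      (hM.fv (σ Polynomial.X) ^ k * hM.fv ((b.map f).prod / (a.map f).prod) ^ r ≤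
        hM.fv (σ Polynomial.X) ^ l * hM.fv ((d.map f).prod / (c.map f).prod) ^ s ↔
      hM.fv (((List.replicate k τ ++ rep r b ++ rep s c).map f).prod) ≤
        hM.fv (((List.replicate l τ ++ rep s d ++ rep r a).map f).prod)) := by
    intro M _ σ hM f hf ha' hc'
    rw [List.map_append, List.map_append, List.prod_append, List.prod_append, List.map_append,
      List.map_append, List.prod_append, List.prod_append, rep_prod, rep_prod, rep_prod, rep_prod,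
      List.map_replicate, List.map_replicate, List.prod_replicate, List.prod_replicate, hf,
      map_mul, map_mul, map_mul, map_mul, map_div₀, map_div₀, map_pow, map_pow, map_pow, map_pow,
      map_pow, map_pow, div_pow, div_pow]
    have p1 : 0 < hM.fv (a.map f).prod ^ r :=
      pow_pos (zero_lt_iff.2 ((Valuation.ne_zero_iff _).2 ha')) r
    have p2 : 0 < hM.fv (c.map f).prod ^ s :=
      pow_pos (zero_lt_iff.2 ((Valuation.ne_zero_iff _).2 hc')) s
    rw [← mul_div_assoc, ← mul_div_assoc, div_le_div_iff₀ p1 p2]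
  have ha2 : (a.map f2).prod ≠ 0 := fun h0 => ha0 ((prod_zero h ha).2 h0)
  have hc2 : (c.map f2).prod ≠ 0 := fun h0 => hc0 ((prod_zero h hc).2 h0)
  rw [key hM1 f1 h1 ha0 hc0, key hM2 f2 h2 ha2 hc2]
  have hrep : ∀ k : ℕ, ∀ i ∈ List.replicate k τ, i ∈ I := by
    intro k i hi
    rw [List.eq_of_mem_replicate hi]
    exact hτ
  have e1 : r * b.length ≤ r * n := Nat.mul_le_mul_left r hbl
  have e2 : s * c.length ≤ s * n := Nat.mul_le_mul_left s hcl
  have e3 : r * a.length ≤ r * n := Nat.mul_le_mul_left r hal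
  have e4 : s * d.length ≤ s * n := Nat.mul_le_mul_left s hdl
  refine h.2 _ _ ?_ ?_ ?_ ?_
  · intro i hi
    rw [List.mem_append, List.mem_append] at hi
    rcases hi with (hi | hi) | hi
    · exact hrep k i hi
    · exact rep_mem hb i hi
    · exact rep_mem hc i hi
  · intro i hi
    rw [List.mem_append, List.mem_append] at hi
    rcases hi with (hi | hi) | hi
    · exact hrep l i hi
    · exact rep_mem hd i hi
    · exact rep_mem ha i hi
  · rw [List.length_append, List.length_append, List.length_replicate, rep_length, rep_length]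
    omega
  · rw [List.length_append, List.length_append, List.length_replicate, rep_length, rep_length]
    omega

theorem lists_finite (I : Finset ι) (N : ℕ) :
    {a : List ι | (∀ i ∈ a, i ∈ I) ∧ a.length ≤ N}.Finite := by
  have h1 : {a : List I | a.length ≤ N}.Finite := List.finite_length_le _ N
  refine (h1.image (List.map Subtype.val)).subset ?_
  rintro a ⟨ha, hl⟩
  refine ⟨a.pmap Subtype.mk ha, ?_, ?_⟩
  · show (a.pmap Subtype.mk ha).length ≤ N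
    rw [List.length_pmap]
    exact hl
  · rw [List.map_pmap]
    exact List.pmap_eq_self.2 fun _ _ => rfl

end

end Pr

section

variable {p : ℕ} [hp : Fact p.Prime] {M1 M2 : Type} [Field M1] [Field M2] {σ1 : P1 p →+* M1}
  {σ2 : P1 p →+* M2}

/-- the tests -/
theorem Pr.test (hM1 : MdlV p σ1) (hM2 : MdlV p σ2) {D : ℕ} (hD : ¬ p ∣ D) (N m : ℕ)
    (hm : m ≠ 0) {ι : Type} (I : Finset ι) (f1 : ι → M1) (f2 : ι → M2) (τ : ι) (hτ : τ ∈ I)
    (h1 : f1 τ = σ1 Polynomial.X) (h2 : f2 τ = σ2 Polynomial.X)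
    (h : EqN hM1.toMdl hM2.toMdl D (2 * (N * N.factorial) + N.factorial * (D * m) + N)
      (N.factorial * (D * m)) I f1 f2) (w : M1) (hw : w ≠ 0) :
    ∃ z : M2, z ≠ 0 ∧ Same σ1 σ2 D w z ∧ VC hM1.toMdl hM2.toMdl m w z ∧
      ∀ (a b : List ι) (n : ℕ), (∀ i ∈ a, i ∈ I) → (∀ i ∈ b, i ∈ I) → a.length ≤ N →
        b.length ≤ N → 1 ≤ n → n ≤ N → (a.map f1).prod ≠ 0 → (b.map f1).prod ≠ 0 →
        (hM1.toMdl.fv ((b.map f1).prod / (a.map f1).prod) ^ (N.factorial / n) ≤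
            hM1.toMdl.fv w ^ N.factorial ↔
          hM2.toMdl.fv ((b.map f2).prod / (a.map f2).prod) ^ (N.factorial / n) ≤
            hM2.toMdl.fv z ^ N.factorial) ∧
        (hM1.toMdl.fv w ^ N.factorial ≤
            hM1.toMdl.fv ((b.map f1).prod / (a.map f1).prod) ^ (N.factorial / n) ↔
          hM2.toMdl.fv z ^ N.factorial ≤
            hM2.toMdl.fv ((b.map f2).prod / (a.map f2).prod) ^ (N.factorial / n)) := by
  have hL : N.factorial ≠ 0 := Nat.factorial_ne_zero N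
  have hD0 : D ≠ 0 := by
    rintro rfl
    exact hD (dvd_zero p)
  have hQ : N.factorial * (D * m) ≠ 0 := mul_ne_zero hL (mul_ne_zero hD0 hm)
  obtain ⟨cut1, cut2⟩ := exists_cut hM1 hM2 hD hm hL w hw
  have pos1 : ∀ {x : M1}, x ≠ 0 → 0 < hM1.toMdl.fv x := fun hx =>
    zero_lt_iff.2 ((Valuation.ne_zero_iff _).2 hx)
  have pos2 : ∀ {x : M2}, x ≠ 0 → 0 < hM2.toMdl.fv x := fun hx =>
    zero_lt_iff.2 ((Valuation.ne_zero_iff _).2 hx)
  set S : Set (List ι × List ι × ℕ) := {c | ((∀ i ∈ c.1, i ∈ I) ∧ c.1.length ≤ N) ∧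
    ((∀ i ∈ c.2.1, i ∈ I) ∧ c.2.1.length ≤ N) ∧ (1 ≤ c.2.2 ∧ c.2.2 ≤ N) ∧
    (c.1.map f1).prod ≠ 0 ∧ (c.2.1.map f1).prod ≠ 0} with hSdef
  have hS : S.Finite := by
    refine ((Pr.lists_finite I N).prod ((Pr.lists_finite I N).prod (Set.finite_Iic N))).subset ?_
    rintro ⟨a, b, n⟩ hc
    exact ⟨hc.1, hc.2.1, hc.2.2.1.2⟩
  have ne2 : ∀ {a : List ι}, (∀ i ∈ a, i ∈ I) → (a.map f1).prod ≠ 0 → (a.map f2).prod ≠ 0 :=
    fun ha h0 h0' => h0 ((Pr.prod_zero h ha).2 h0')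
  have hle : ∀ n : ℕ, N.factorial / n * N ≤ N * N.factorial := by
    intro n
    rw [mul_comm N]
    exact Nat.mul_le_mul_right N (Nat.div_le_self _ _)
  obtain ⟨z', ⟨z, hz0, hz1, hz2, rfl⟩, hz⟩ := cut_core (pos1 hM1.toMdl.t_ne)
    (pos2 hM2.toMdl.t_ne) hM2.toMdl.fv_t_lt
    (fun x hx => by
      obtain ⟨y, rfl⟩ := hM1.toMdl.OVv.valuation_surjective x
      exact hM1.toMdl.le_fv_t hx) S hS
    (fun c => hM1.toMdl.fv ((c.2.1.map f1).prod / (c.1.map f1).prod) ^ (N.factorial / c.2.2))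
    (fun c => hM2.toMdl.fv ((c.2.1.map f2).prod / (c.1.map f2).prod) ^ (N.factorial / c.2.2))
    (fun c hc => pow_pos (pos2 (div_ne_zero (ne2 hc.2.1.1 hc.2.2.2.2)
      (ne2 hc.1.1 hc.2.2.2.1))) _)
    (N.factorial * (D * m))
    (fun k hk c hc d hd => by
      have hn1 := hle c.2.2
      have hn2 := hle d.2.2
      have q1 := Pr.quot_le h hτ h1 h2 (k := k) (l := 0) (r := N.factorial / c.2.2)
        (s := N.factorial / d.2.2) (n := N) hc.1.1 hc.2.1.1 hd.1.1 hd.2.1.1 hc.2.2.2.1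
        hd.2.2.2.1 hc.1.2 hc.2.1.2 hd.1.2 hd.2.1.2 (by omega)
      have q2 := Pr.quot_le h hτ h1 h2 (k := 0) (l := k) (r := N.factorial / c.2.2)
        (s := N.factorial / d.2.2) (n := N) hc.1.1 hc.2.1.1 hd.1.1 hd.2.1.1 hc.2.2.2.1
        hd.2.2.2.1 hc.1.2 hc.2.1.2 hd.1.2 hd.2.1.2 (by omega)
      rw [pow_zero, one_mul, pow_zero, one_mul] at q1
      rw [pow_zero, one_mul, pow_zero, one_mul] at q2
      exact ⟨q1, q2⟩)
    (hM1.toMdl.fv w ^ N.factorial) (pow_pos (pos1 hw) _)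
    (fun z' => ∃ z : M2, z ≠ 0 ∧ Same σ1 σ2 D w z ∧ VC hM1.toMdl hM2.toMdl m w z ∧
      hM2.toMdl.fv z ^ N.factorial = z')
    (fun u hu => by
      obtain ⟨y, rfl⟩ := hM2.toMdl.OVv.valuation_surjective u
      have hy : y ≠ 0 := by
        rintro rfl
        rw [map_zero] at hu
        exact absurd hu (lt_irrefl _)
      obtain ⟨z, hz0, hz1, hz2, hz3, hz4⟩ := cut1 y hy
      refine ⟨_, ⟨z, hz0, hz1, hz2, rfl⟩, ?_, ?_⟩
      · rw [← map_pow]
        exact hz3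
      · rw [map_mul, map_pow hM2.toMdl.fv, map_pow hM2.toMdl.fv] at hz4
        exact hz4)
    (fun k c hc hk => by
      have c10 : ((c.2.1.map f1).prod / (c.1.map f1).prod) ^ (N.factorial / c.2.2) ≠ 0 :=
        pow_ne_zero _ (div_ne_zero hc.2.2.2.2 hc.2.2.2.1)
      have c20 : ((c.2.1.map f2).prod / (c.1.map f2).prod) ^ (N.factorial / c.2.2) ≠ 0 :=
        pow_ne_zero _ (div_ne_zero (ne2 hc.2.1.1 hc.2.2.2.2) (ne2 hc.1.1 hc.2.2.2.1))
      have hvc : VC hM1.toMdl hM2.toMdl (N.factorial * (D * m))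
          (((c.2.1.map f1).prod / (c.1.map f1).prod) ^ (N.factorial / c.2.2))
          (((c.2.1.map f2).prod / (c.1.map f2).prod) ^ (N.factorial / c.2.2)) := by
        refine Pr.VC_pow ?_ _
        rw [div_eq_mul_inv, div_eq_mul_inv]
        exact (Pr.prod_vc h hc.2.1.1 hc.2.2.2.2).mul (Pr.VC_inv hQ (Pr.prod_vc h hc.1.1 hc.2.2.2.1))
      obtain ⟨z, hz0, hz1, hz2, hz3⟩ := cut2 k _ _ c10 c20 hvc (by
        rw [map_mul, map_pow, map_pow, map_pow]
        exact hk)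
      refine ⟨_, ⟨z, hz0, hz1, hz2, rfl⟩, ?_⟩
      rw [map_mul, map_pow hM2.toMdl.fv, map_pow hM2.toMdl.fv, map_pow hM2.toMdl.fv] at hz3
      exact hz3)
  refine ⟨z, hz0, hz1, hz2, fun a b n ha hb hal hbl hn1 hn2 ha0 hb0 => ?_⟩
  exact hz (a, b, n) ⟨⟨ha, hal⟩, ⟨hb, hbl⟩, ⟨hn1, hn2⟩, ha0, hb0⟩

/-- from the tests to the comparisons, in one model -/
theorem Pr.le_iff {M : Type} [Field M] {σ : P1 p →+* M} (hM : Mdl p σ) {A B w : M} (hA : A ≠ 0)
    (hw : w ≠ 0) {k l N : ℕ} (hk : k ≤ N) (hkl : l < k) :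
    hM.fv (A * w ^ k) ≤ hM.fv (B * w ^ l) ↔
      hM.fv w ^ N.factorial ≤ hM.fv (B / A) ^ (N.factorial / (k - l)) := by
  have hn : k - l ∣ N.factorial := Nat.dvd_factorial (by omega) (by omega)
  have hn0 : N.factorial / (k - l) ≠ 0 :=
    (Nat.div_pos (Nat.le_of_dvd (Nat.factorial_pos N) hn) (by omega)).ne'
  have pA : 0 < hM.fv A := zero_lt_iff.2 ((Valuation.ne_zero_iff _).2 hA)
  have pw : 0 < hM.fv w := zero_lt_iff.2 ((Valuation.ne_zero_iff _).2 hw)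
  have e1 : hM.fv w ^ N.factorial = (hM.fv w ^ (k - l)) ^ (N.factorial / (k - l)) := by
    rw [← pow_mul, Nat.mul_div_cancel' hn]
  rw [e1, pow_le_pow_iff_left₀ zero_le zero_le hn0, map_div₀, le_div_iff₀ pA, map_mul, map_mul,
    map_pow, map_pow]
  have e2 : hM.fv A * hM.fv w ^ k = hM.fv w ^ (k - l) * hM.fv A * hM.fv w ^ l := by
    rw [mul_right_comm, ← pow_add, Nat.sub_add_cancel hkl.le, mul_comm]
  rw [e2, mul_le_mul_iff_left₀ (pow_pos pw l)]

theorem Pr.ge_iff {M : Type} [Field M] {σ : P1 p →+* M} (hM : Mdl p σ) {A B w : M}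
    (hB : B ≠ 0) (hw : w ≠ 0) {k l N : ℕ} (hl : l ≤ N) (hkl : k < l) :
    hM.fv (A * w ^ k) ≤ hM.fv (B * w ^ l) ↔
      hM.fv (A / B) ^ (N.factorial / (l - k)) ≤ hM.fv w ^ N.factorial := by
  have hn : l - k ∣ N.factorial := Nat.dvd_factorial (by omega) (by omega)
  have hn0 : N.factorial / (l - k) ≠ 0 :=
    (Nat.div_pos (Nat.le_of_dvd (Nat.factorial_pos N) hn) (by omega)).ne'
  have pB : 0 < hM.fv B := zero_lt_iff.2 ((Valuation.ne_zero_iff _).2 hB)
  have pw : 0 < hM.fv w := zero_lt_iff.2 ((Valuation.ne_zero_iff _).2 hw)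
  have e1 : hM.fv w ^ N.factorial = (hM.fv w ^ (l - k)) ^ (N.factorial / (l - k)) := by
    rw [← pow_mul, Nat.mul_div_cancel' hn]
  rw [e1, pow_le_pow_iff_left₀ zero_le zero_le hn0, map_div₀, div_le_iff₀ pB, map_mul, map_mul,
    map_pow, map_pow]
  have e2 : hM.fv B * hM.fv w ^ l = hM.fv w ^ (l - k) * hM.fv B * hM.fv w ^ k := by
    rw [mul_right_comm, ← pow_add, Nat.sub_add_cancel hkl.le, mul_comm]
  rw [e2, mul_le_mul_iff_left₀ (pow_pos pw k)]

/-- FS-2: an element of the second model in the same position as `w` with respect to products of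
members of the family -/
theorem exists_z (hM1 : MdlV p σ1) (hM2 : MdlV p σ2) {D : ℕ} (hD : ¬ p ∣ D) (N m : ℕ)
    (hm : m ≠ 0) : ∃ N' m' : ℕ, m' ≠ 0 ∧ ∀ {ι : Type} (I : Finset ι) (f1 : ι → M1) (f2 : ι → M2)
      (o τ : ι), o ∈ I → τ ∈ I → f1 o = 1 → f2 o = 1 → f1 τ = σ1 Polynomial.X →
      f2 τ = σ2 Polynomial.X → EqN hM1.toMdl hM2.toMdl D N' m' I f1 f2 → ∀ w : M1, w ≠ 0 →
      ∃ z : M2, z ≠ 0 ∧ Same σ1 σ2 D w z ∧ VC hM1.toMdl hM2.toMdl m w z ∧
        ∀ (a b : List ι) (k l : ℕ), (∀ i ∈ a, i ∈ I) → (∀ i ∈ b, i ∈ I) → a.length ≤ N →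
          b.length ≤ N → k ≤ N → l ≤ N →
          (hM1.toMdl.fv ((a.map f1).prod * w ^ k) ≤ hM1.toMdl.fv ((b.map f1).prod * w ^ l) ↔
            hM2.toMdl.fv ((a.map f2).prod * z ^ k) ≤ hM2.toMdl.fv ((b.map f2).prod * z ^ l)) := by
  have hD0 : D ≠ 0 := by
    rintro rfl
    exact hD (dvd_zero p)
  refine ⟨2 * (N * N.factorial) + N.factorial * (D * m) + N, N.factorial * (D * m),
    mul_ne_zero (Nat.factorial_ne_zero N) (mul_ne_zero hD0 hm), ?_⟩
  intro ι I f1 f2 o τ _ hτ _ _ h1 h2 h w hw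
  obtain ⟨z, hz0, hz1, hz2, hz⟩ := Pr.test hM1 hM2 hD N m hm I f1 f2 τ hτ h1 h2 h w hw
  refine ⟨z, hz0, hz1, hz2, fun a b k l ha hb hal hbl hk hl => ?_⟩
  by_cases ha0 : (a.map f1).prod = 0
  · rw [ha0, (Pr.prod_zero h ha).1 ha0, zero_mul, zero_mul, map_zero, map_zero]
    exact ⟨fun _ => zero_le, fun _ => zero_le⟩
  have ha2 : (a.map f2).prod ≠ 0 := fun h0 => ha0 ((Pr.prod_zero h ha).2 h0)
  by_cases hb0 : (b.map f1).prod = 0
  · rw [hb0, (Pr.prod_zero h hb).1 hb0, zero_mul, zero_mul, map_zero, map_zero, le_zero_iff,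
      le_zero_iff, map_eq_zero, map_eq_zero]
    exact ⟨fun h0 => absurd h0 (mul_ne_zero ha0 (pow_ne_zero _ hw)),
      fun h0 => absurd h0 (mul_ne_zero ha2 (pow_ne_zero _ hz0))⟩
  have hb2 : (b.map f2).prod ≠ 0 := fun h0 => hb0 ((Pr.prod_zero h hb).2 h0)
  rcases lt_trichotomy k l with hkl | hkl | hkl
  · rw [Pr.ge_iff hM1.toMdl hb0 hw hl hkl, Pr.ge_iff hM2.toMdl hb2 hz0 hl hkl]
    exact (hz b a (l - k) hb ha hbl hal (by omega) (by omega) hb0 ha0).1
  · subst hkl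
    have pw : 0 < hM1.toMdl.fv w := zero_lt_iff.2 ((Valuation.ne_zero_iff _).2 hw)
    have pz : 0 < hM2.toMdl.fv z := zero_lt_iff.2 ((Valuation.ne_zero_iff _).2 hz0)
    rw [map_mul, map_mul, map_mul, map_mul, map_pow, map_pow, mul_le_mul_iff_left₀ (pow_pos pw k),
      mul_le_mul_iff_left₀ (pow_pos pz k)]
    exact h.2 a b ha hb (by omega) (by omega)
  · rw [Pr.le_iff hM1.toMdl ha0 hw hk hkl, Pr.le_iff hM2.toMdl ha2 hz0 hk hkl]
    exact (hz a b (k - l) ha hb hal hbl (by omega) (by omega) ha0 hb0).2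

end

end FS90
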