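import Pool.Agent.FS90.Pres
import Pool.Agent.FO90.Step

/-!
# One step of the back and forth, with values of products
-/

set_option maxSynthPendingDepth 10

namespace FS90

open FT80 BF80 DS90 FO90

namespace Sp

section step

variable {p : ℕ} [hp : Fact p.Prime] {M1 M2 : Type} [Field M1] [Field M2] {σ1 : P1 p →+* M1}
  {σ2 : P1 p →+* M2} (hM1 : Mdl p σ1) (hM2 : Mdl p σ2) {E : Type} [Field E] (e1 : E →+* M1)
  (e2 : E →+* M2) {V : Type} [AddCommGroup V] [Module E V]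

/-- the comparisons of products with powers of `w`, respectively `z` -/
def ZN (N : ℕ) (S : Finset V) (f1 : V → M1) (f2 : V → M2) (w : M1) (z : M2) : Prop :=
  ∀ (a b : List V) (k l : ℕ), (∀ i ∈ a, i ∈ S) → (∀ i ∈ b, i ∈ S) → a.length ≤ N →
    b.length ≤ N → k ≤ N → l ≤ N →
    (hM1.fv ((a.map f1).prod * w ^ k) ≤ hM1.fv ((b.map f1).prod * w ^ l) ↔
      hM2.fv ((a.map f2).prod * z ^ k) ≤ hM2.fv ((b.map f2).prod * z ^ l))

variable {hM1 hM2} in
theorem ZN.left {N : ℕ} (hN : 1 ≤ N) {S : Finset V} {f1 : V → M1} {f2 : V → M2} {w : M1} {z : M2}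
    (h : ZN hM1 hM2 N S f1 f2 w z) {x : V} (hx : x ∈ S) :
    hM1.fv (f1 x) ≤ hM1.fv w ↔ hM2.fv (f2 x) ≤ hM2.fv z := by
  have := h [x] [] 0 1 (by simpa using hx) (by simp) hN (Nat.zero_le _) (Nat.zero_le _) hN
  simpa using this

variable {hM1 hM2} in
theorem ZN.right {N : ℕ} (hN : 1 ≤ N) {S : Finset V} {f1 : V → M1} {f2 : V → M2} {w : M1} {z : M2}
    (h : ZN hM1 hM2 N S f1 f2 w z) {x : V} (hx : x ∈ S) :
    hM1.fv w ≤ hM1.fv (f1 x) ↔ hM2.fv z ≤ hM2.fv (f2 x) := by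
  have := h [] [x] 1 0 (by simp) (by simpa using hx) (Nat.zero_le _) hN hN (Nat.zero_le _)
  simpa using this

/-- assembly: `A` is the finite set of pairs `(a, h)`, the forms are the `a • (X + h)`; the value
of `X` is `w` in the first model and `z` in the second one -/
theorem assemble {D N m : ℕ} (hN : 1 ≤ N) (hD : ¬ p ∣ D)
    (hE : ∀ x : E, x ≠ 0 → Same σ1 σ2 D (e1 x) (e2 x))
    (hEc : ∀ x : E, x ≠ 0 → VC hM1 hM2 m (e1 x) (e2 x))
    (one : V) (S₀ : Finset V) (A : Finset (E × V)) (w : M1) (z : M2) (hw : w ≠ 0)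
    (ρ1 : V →ₛₗ[e1] M1) (ρ2 : V →ₛₗ[e2] M2) (o1 : ρ1 one = 1) (o2 : ρ2 one = 1)
    (S1 : Finset V) (hS₀ : ∀ f ∈ S₀, f ∈ S1)
    (hA : ∀ x ∈ A, x.1 ≠ 0 ∧ hM1.fv w ≤ hM1.fv (w + ρ1 x.2) ∧
      x.2 ∈ S1 ∧ x.1 • x.2 ∈ S1 ∧ x.1 • one ∈ S1)
    (hg : EqN hM1 hM2 D N m S1 ρ1 ρ2) (hz : Same σ1 σ2 D w z) (hzc : VC hM1 hM2 m w z)
    (hzN : ZN hM1 hM2 N S1 ρ1 ρ2 w z)
    (h3 : ∀ x ∈ A, hM1.fv (ρ1 x.2) = hM1.fv w → Same σ1 σ2 D (w + ρ1 x.2) (z + ρ2 x.2) ∧
      hM2.fv (z + ρ2 x.2) = hM2.fv z) {ι : Type*} (Λ : Finset ι) (g1 : ι → M1) (g2 : ι → M2)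
    (hΛ : ∀ f ∈ Λ, (∃ v ∈ S₀, g1 f = ρ1 v ∧ g2 f = ρ2 v) ∨
      ∃ x ∈ A, g1 f = e1 x.1 * (w + ρ1 x.2) ∧ g2 f = e2 x.1 * (z + ρ2 x.2)) :
    EqN hM1 hM2 D N m Λ g1 g2 := by
  classical
  have hwv : hM1.fv w ≠ 0 := (Valuation.ne_zero_iff _).2 hw
  -- classification
  have cls : ∀ f ∈ Λ, (Cl σ1 σ2 D (g1 f) (g2 f) ∧ (g1 f ≠ 0 → VC hM1 hM2 m (g1 f) (g2 f))) ∧
      ∃ (v : V) (n : ℕ), v ∈ S1 ∧ n ≤ 1 ∧ hM1.fv (g1 f) = hM1.fv (ρ1 v * w ^ n) ∧
        hM2.fv (g2 f) = hM2.fv (ρ2 v * z ^ n) := by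
    intro f hf
    rcases hΛ f hf with ⟨v, hv, hf1, hf2⟩ | ⟨x, hx, hf1, hf2⟩
    · rw [hf1, hf2]
      exact ⟨hg.1 v (hS₀ v hv), v, 0, hS₀ v hv, zero_le_one, by rw [pow_zero, mul_one],
        by rw [pow_zero, mul_one]⟩
    · obtain ⟨hx1, hx2, hH, hS1, hone⟩ := hA x hx
      have key : (Same σ1 σ2 D (w + ρ1 x.2) (z + ρ2 x.2) ∧ hM1.fv (w + ρ1 x.2) = hM1.fv w ∧
          hM2.fv (z + ρ2 x.2) = hM2.fv z) ∨
          (hM1.fv (w + ρ1 x.2) = hM1.fv (ρ1 x.2) ∧ hM2.fv (z + ρ2 x.2) = hM2.fv (ρ2 x.2) ∧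
            Sm D (ρ1 x.2) (w + ρ1 x.2) ∧ Sm D (ρ2 x.2) (z + ρ2 x.2) ∧ ρ1 x.2 ≠ 0) := by
        rcases lt_trichotomy (hM1.fv (ρ1 x.2)) (hM1.fv w) with h4 | h4 | h4
        · left
          have h5 : hM2.fv (ρ2 x.2) < hM2.fv z := by
            rw [← not_le, ← hzN.right hN hH, not_le]
            exact h4
          exact ⟨(hz.smL (sm_add hM1 hD h4)).smR (sm_add hM2 hD h5), fv_add hM1 h4,
            fv_add hM2 h5⟩
        · left
          obtain ⟨h6, h7⟩ := h3 x hx h4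
          refine ⟨h6, le_antisymm ?_ hx2, h7⟩
          refine (Valuation.map_add _ _ _).trans ?_
          rw [h4, max_self]
        · right
          have h5 : hM2.fv z < hM2.fv (ρ2 x.2) := by
            rw [← not_le, ← hzN.left hN hH, not_le]
            exact h4
          refine ⟨?_, ?_, ?_, ?_, ?_⟩
          · rw [add_comm]
            exact fv_add hM1 h4
          · rw [add_comm]
            exact fv_add hM2 h5
          · rw [add_comm]
            exact sm_add hM1 hD h4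
          · rw [add_comm]
            exact sm_add hM2 hD h5
          · intro h0
            rw [h0, map_zero] at h4
            exact absurd h4 (not_lt.2 zero_le)
      rw [hf1, hf2]
      rcases key with ⟨h4, h5, h6⟩ | ⟨h7, h8, h9, h10, h0⟩
      · refine ⟨⟨Or.inr ((hE x.1 hx1).mul h4), fun _ => ((hEc x.1 hx1).mul hzc).congr ?_ ?_⟩,
          x.1 • one, 1, hone, le_rfl, ?_, ?_⟩
        · rw [map_mul, map_mul, h5]
        · rw [map_mul, map_mul, h6]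
        · rw [map_smulₛₗ, o1, smul_eq_mul, mul_one, pow_one, map_mul, map_mul, h5]
        · rw [map_smulₛₗ, o2, smul_eq_mul, mul_one, pow_one, map_mul, map_mul, h6]
      · have h11 := hg.1 _ hS1
        have e1' : ρ1 (x.1 • x.2) = e1 x.1 * ρ1 x.2 := by
          rw [map_smulₛₗ, smul_eq_mul]
        have e2' : ρ2 (x.1 • x.2) = e2 x.1 * ρ2 x.2 := by
          rw [map_smulₛₗ, smul_eq_mul]
        rw [e1', e2'] at h11
        have hne : e1 x.1 * ρ1 x.2 ≠ 0 := mul_ne_zero ((map_ne_zero e1).2 hx1) h0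
        refine ⟨⟨Or.inr (((h11.1.same hne).smL (h9.mul _)).smR (h10.mul _)),
          fun _ => (h11.2 hne).congr ?_ ?_⟩, x.1 • x.2, 0, hS1, zero_le_one, ?_, ?_⟩
        · rw [map_mul, map_mul, h7]
        · rw [map_mul, map_mul, h8]
        · rw [e1', pow_zero, mul_one, map_mul, map_mul, h7]
        · rw [e2', pow_zero, mul_one, map_mul, map_mul, h8]
  -- products
  have lst : ∀ a : List ι, (∀ i ∈ a, i ∈ Λ) → ∃ (c : List V) (k : ℕ), (∀ i ∈ c, i ∈ S1) ∧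
      c.length = a.length ∧ k ≤ a.length ∧
      hM1.fv (a.map g1).prod = hM1.fv ((c.map ρ1).prod * w ^ k) ∧
      hM2.fv (a.map g2).prod = hM2.fv ((c.map ρ2).prod * z ^ k) := by
    intro a
    induction a with
    | nil => exact fun _ => ⟨[], 0, by simp, rfl, le_rfl, by simp, by simp⟩
    | cons f a ih =>
      intro ha
      obtain ⟨c, k, h1, h2, h3, h4, h5⟩ := ih fun i hi => ha i (List.mem_cons_of_mem _ hi)
      obtain ⟨-, v, n, hv, hn, h6, h7⟩ := cls f (ha f List.mem_cons_self)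
      refine ⟨v :: c, n + k, ?_, by simp [h2], ?_, ?_, ?_⟩
      · intro i hi
        rcases List.mem_cons.1 hi with rfl | hi
        · exact hv
        · exact h1 i hi
      · rw [List.length_cons]
        omega
      · rw [List.map_cons, List.prod_cons, map_mul, h6, h4, ← map_mul, List.map_cons,
          List.prod_cons, pow_add, mul_mul_mul_comm]
      · rw [List.map_cons, List.prod_cons, map_mul, h7, h5, ← map_mul, List.map_cons,
          List.prod_cons, pow_add, mul_mul_mul_comm]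
  refine ⟨fun f hf => (cls f hf).1, fun a b ha hb ha' hb' => ?_⟩
  obtain ⟨c, k, h1, h2, h3, h4, h5⟩ := lst a ha
  obtain ⟨c', k', h1', h2', h3', h4', h5'⟩ := lst b hb
  rw [h4, h4', h5, h5']
  exact hzN c c' k k' h1 h1' (h2.le.trans ha') (h2'.le.trans hb') (h3.trans ha') (h3'.trans hb')

end step

section choice

variable {p : ℕ} [hp : Fact p.Prime] {M1 M2 : Type} [Field M1] [Field M2] {σ1 : P1 p →+* M1}
  {σ2 : P1 p →+* M2} (hM1 : MdlV p σ1) (hM2 : MdlV p σ2) {E : Type} [Field E] (e1 : E →+* M1)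
  (e2 : E →+* M2)

/-- the choice of the value of `X` in the second model -/
theorem choice (te : E) (ht1 : e1 te = σ1 Polynomial.X) (ht2 : e2 te = σ2 Polynomial.X) {D : ℕ}
    (hD : ¬ p ∣ D) (N m : ℕ) (hm : m ≠ 0) :
    ∃ N' m' : ℕ, N ≤ N' ∧ 1 ≤ N' ∧ m' ≠ 0 ∧ m ∣ m' ∧
    ∀ {V : Type} [AddCommGroup V] [Module E V] (one : V) (A : Finset (E × V)) (w : M1) (_ : w ≠ 0)
      (ρ1 : V →ₛₗ[e1] M1) (ρ2 : V →ₛₗ[e2] M2) (_ : ρ1 one = 1) (_ : ρ2 one = 1)
      (S : Finset V) (_ : one ∈ S) (_ : te • one ∈ S)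
      (_ : ∀ x ∈ A, hM1.toMdl.fv w ≤ hM1.toMdl.fv (w + ρ1 x.2) ∧ x.2 ∈ S)
      (_ : ∀ x ∈ A, ∀ h ∈ A, ∀ c < p, x.2 - (c : E) • h.2 ∈ S)
      (_ : EqN hM1.toMdl hM2.toMdl D N' m' S ρ1 ρ2),
      ∃ z : M2, Same σ1 σ2 D w z ∧ VC hM1.toMdl hM2.toMdl m w z ∧
        ZN hM1.toMdl hM2.toMdl N S ρ1 ρ2 w z ∧
        ∀ x ∈ A, hM1.toMdl.fv (ρ1 x.2) = hM1.toMdl.fv w →
          Same σ1 σ2 D (w + ρ1 x.2) (z + ρ2 x.2) ∧
          hM2.toMdl.fv (z + ρ2 x.2) = hM2.toMdl.fv z := by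
  classical
  obtain ⟨Nz, mz, hmz, hz⟩ := exists_z hM1 hM2 hD N m hm
  refine ⟨Nz + 2 * N + 1, m * mz, by omega, by omega, mul_ne_zero hm hmz, dvd_mul_right _ _, ?_⟩
  intro V _ _ one A w hw0 ρ1 ρ2 o1 o2 S hone hte hA m10 hg
  have hg1 : Eqv hM1.toMdl hM2.toMdl D S ρ1 ρ2 := hg.eqv (by omega)
  have ρz : ∀ h ∈ S, ρ1 h = 0 ↔ ρ2 h = 0 := fun h hh =>
    (hg.1 h hh).1.zero_iff hM1.toMdl hM2.toMdl
  have hwv : (0 : hM1.toMdl.VG) < hM1.toMdl.fv w :=
    zero_lt_iff.2 ((Valuation.ne_zero_iff _).2 hw0)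
  have n1 : ∀ (c : ℕ) (h : V), ρ1 ((c : E) • h) = c * ρ1 h := by
    intro c h
    rw [map_smulₛₗ, smul_eq_mul, map_natCast]
  have n2 : ∀ (c : ℕ) (h : V), ρ2 ((c : E) • h) = c * ρ2 h := by
    intro c h
    rw [map_smulₛₗ, smul_eq_mul, map_natCast]
  by_cases hcase : ∃ x ∈ A, hM1.toMdl.fv (ρ1 x.2) = hM1.toMdl.fv w
  · -- case 1
    obtain ⟨x0, hx0, hv⟩ := hcase
    obtain ⟨h, hh0⟩ : ∃ h, h = x0.2 := ⟨_, rfl⟩
    rw [← hh0] at hv
    have hhS : h ∈ S := by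
      rw [hh0]
      exact (hA x0 hx0).2
    have hne : ρ1 h ≠ 0 := by
      intro h0
      rw [h0, map_zero] at hv
      exact hwv.ne hv
    have hne2 : ρ2 h ≠ 0 := fun h0 => hne ((ρz h hhS).2 h0)
    obtain ⟨c, hc1, hc2, hc3⟩ := residue hM1.toMdl hne hv.symm
    have hzv : hM2.toMdl.fv ((c : M2) * ρ2 h) = hM2.toMdl.fv (ρ2 h) :=
      fv_natCast_mul hM2.toMdl hc1 hc2 _
    have hpc : ¬ p ∣ c := fun h => absurd (Nat.le_of_dvd hc1 h) (not_le.2 hc2)
    have hsame : Same σ1 σ2 D (ρ1 h) (ρ2 h) := (hg.1 h hhS).1.same hne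
    refine ⟨(c : M2) * ρ2 h, ?_, ?_, ?_, fun x hx hxv => ?_⟩
    · -- class of `w`
      have h1 : Sm D ((c : M1) * ρ1 h) w := by
        have := sm_add hM1.toMdl hD (f := (c : M1) * ρ1 h) (g := w - c * ρ1 h) (by
          rw [fv_natCast_mul hM1.toMdl hc1 hc2]
          exact hc3)
        rwa [add_sub_cancel] at this
      exact ((Same.natCast hpc).mul hsame).smL h1
    · exact (((hg.1 h hhS).2 hne).of_dvd (dvd_mul_right _ _)).congr hv hzv.symm
    · intro a b k l ha hb ha' hb' hk hl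
      have e1 : ∀ (a : List V) (k : ℕ), hM1.toMdl.fv ((a.map ρ1).prod * w ^ k) =
          hM1.toMdl.fv ((a ++ List.replicate k h).map ρ1).prod := by
        intro a k
        rw [List.map_append, List.prod_append, List.map_replicate, List.prod_replicate, map_mul,
          map_mul, map_pow, map_pow, hv]
      have e2 : ∀ (a : List V) (k : ℕ), hM2.toMdl.fv ((a.map ρ2).prod * ((c : M2) * ρ2 h) ^ k) =
          hM2.toMdl.fv ((a ++ List.replicate k h).map ρ2).prod := by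
        intro a k
        rw [List.map_append, List.prod_append, List.map_replicate, List.prod_replicate, map_mul,
          map_mul, map_pow, map_pow, hzv]
      rw [e1, e1, e2, e2]
      have hmem : ∀ (a : List V) (k : ℕ), (∀ i ∈ a, i ∈ S) →
          ∀ i ∈ a ++ List.replicate k h, i ∈ S := by
        intro a k ha i hi
        rcases List.mem_append.1 hi with hi | hi
        · exact ha i hi
        · rw [List.eq_of_mem_replicate hi]
          exact hhS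
      refine hg.2 _ _ (hmem a k ha) (hmem b l hb) ?_ ?_
      · rw [List.length_append, List.length_replicate]
        omega
      · rw [List.length_append, List.length_replicate]
        omega
    · obtain ⟨c', hc1', hc2', hc3'⟩ := residue hM1.toMdl hne (hxv.trans hv.symm)
      have hmin := (hA x hx).1
      -- the sum of the residues is not zero
      have hcc : ¬ p ∣ c + c' := by
        intro hcc
        have h1 : ((c + c' : ℕ) : M1) = 0 := by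
          have h2 : σ1 (Polynomial.C ((c + c' : ℕ) : ZMod p)) = 0 := by
            rw [(ZMod.natCast_eq_zero_iff _ _).2 hcc, Polynomial.C_0, map_zero]
          rwa [Polynomial.C_eq_natCast, map_natCast] at h2
        have h2 : w + ρ1 x.2 = (w - c * ρ1 h) + (ρ1 x.2 - c' * ρ1 h) := by
          push_cast at h1
          linear_combination (ρ1 h) * h1
        have h3 : hM1.toMdl.fv (w + ρ1 x.2) < hM1.toMdl.fv (ρ1 h) := by
          rw [h2]
          exact Valuation.map_add_lt _ hc3 hc3'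
        rw [hv] at h3
        exact absurd hmin (not_le.2 h3)
      have hcv1 : ∀ y : M1, hM1.toMdl.fv (((c + c' : ℕ) : M1) * y) = hM1.toMdl.fv y := by
        intro y
        have h3 : ((c + c' : ℕ) : M1) = σ1 (Polynomial.C ((c + c' : ℕ) : ZMod p)) := by
          rw [Polynomial.C_eq_natCast, map_natCast]
        have h5 := hM1.toMdl.unit_σ (f := Polynomial.C ((c + c' : ℕ) : ZMod p))
          (by rw [Polynomial.coeff_C_zero, Ne, ZMod.natCast_eq_zero_iff]; exact hcc)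
        rw [map_mul, h3, hM1.toMdl.fv_eq_one h5.1 (hM1.toMdl.VO_σ _) h5.2, one_mul]
      have hcv2 : ∀ y : M2, hM2.toMdl.fv (((c + c' : ℕ) : M2) * y) = hM2.toMdl.fv y := by
        intro y
        have h3 : ((c + c' : ℕ) : M2) = σ2 (Polynomial.C ((c + c' : ℕ) : ZMod p)) := by
          rw [Polynomial.C_eq_natCast, map_natCast]
        have h5 := hM2.toMdl.unit_σ (f := Polynomial.C ((c + c' : ℕ) : ZMod p))
          (by rw [Polynomial.coeff_C_zero, Ne, ZMod.natCast_eq_zero_iff]; exact hcc)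
        rw [map_mul, h3, hM2.toMdl.fv_eq_one h5.1 (hM2.toMdl.VO_σ _) h5.2, one_mul]
      have h1 : Sm D (((c + c' : ℕ) : M1) * ρ1 h) (w + ρ1 x.2) := by
        have := sm_add hM1.toMdl hD (f := ((c + c' : ℕ) : M1) * ρ1 h)
          (g := (w - c * ρ1 h) + (ρ1 x.2 - c' * ρ1 h)) (by
            rw [hcv1]
            exact Valuation.map_add_lt _ hc3 hc3')
        have h2 : ((c + c' : ℕ) : M1) * ρ1 h + ((w - c * ρ1 h) + (ρ1 x.2 - c' * ρ1 h)) =
            w + ρ1 x.2 := by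
          push_cast
          ring
        rwa [h2] at this
      have hd : hM2.toMdl.fv (ρ2 (x.2 - (c' : E) • h)) < hM2.toMdl.fv (ρ2 h) := by
        have hm10 : x.2 - (c' : E) • h ∈ S := by
          rw [hh0]
          exact m10 x hx x0 hx0 c' hc2'
        refine (hg1.lt hm10 hhS).1 ?_
        rw [map_sub, n1]
        exact hc3'
      have h3 : (c : M2) * ρ2 h + ρ2 x.2 =
          ((c + c' : ℕ) : M2) * ρ2 h + ρ2 (x.2 - (c' : E) • h) := by
        rw [map_sub, n2]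
        push_cast
        ring
      rw [h3, hzv]
      refine ⟨(((Same.natCast hcc).mul hsame).smL h1).smR (sm_add hM2.toMdl hD
        (by rw [hcv2]; exact hd)), ?_⟩
      rw [fv_add hM2.toMdl (by rw [hcv2]; exact hd), hcv2]
  · -- case 2
    push Not at hcase
    have t1 : ρ1 (te • one) = σ1 Polynomial.X := by
      rw [map_smulₛₗ, o1, smul_eq_mul, mul_one, ht1]
    have t2 : ρ2 (te • one) = σ2 Polynomial.X := by
      rw [map_smulₛₗ, o2, smul_eq_mul, mul_one, ht2]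
    obtain ⟨z, -, hz1, hz2, hz3⟩ := hz S ρ1 ρ2 one (te • one) hone hte o1 o2 t1 t2
      (hg.mono (by omega) (dvd_mul_left _ _) subset_rfl) w hw0
    exact ⟨z, hz1, hz2, hz3, fun x hx hxv => absurd hxv (hcase x hx)⟩

end choice

section fin

variable {E : Type} [Field E] [DecidableEq E] {V : Type} [AddCommGroup V] [Module E V]
  [DecidableEq V]

/-- the forms without `X` -/
def S0 (Λ : Finset (V × E)) : Finset V := (Λ.filter fun x => x.2 = 0).image fun x => x.1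

/-- the differences to the form `ν` -/
def DA (Λ : Finset (V × E)) (ν : V × E) : Finset (E × V) :=
  (Λ.filter fun x => x.2 ≠ 0).image fun x => (x.2, x.2⁻¹ • x.1 - ν.2⁻¹ • ν.1)

/-- all forms for the choice of the form `ν` -/
def SS (te : E) (one : V) (p : ℕ) (S : Finset V) (A : Finset (E × V)) : Finset V :=
  S ∪ ((A.image fun x => x.1 • x.2) ∪ ((A.image fun x => x.2) ∪ ((A.image fun x => x.1 • one) ∪
    ({one, te • one} ∪
      ((A ×ˢ A ×ˢ Finset.range p).image fun x => x.1.2 - (x.2.2 : E) • x.2.1.2)))))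

/-- all forms -/
def LL (te : E) (one : V) (p : ℕ) (Λ : Finset (V × E)) : Finset V :=
  Λ.image (fun x => x.1) ∪ (((Λ ×ˢ Λ).image fun x => x.1.1 - (x.1.2 * x.2.2⁻¹) • x.2.1) ∪
    Λ.biUnion fun ν => SS te one p (S0 Λ) (DA Λ ν))

end fin

end Sp

section main

open Sp

variable {p : ℕ} [hp : Fact p.Prime] {M1 M2 : Type} [Field M1] [Field M2] {σ1 : P1 p →+* M1}
  {σ2 : P1 p →+* M2} (hM1 : MdlV p σ1) (hM2 : MdlV p σ2) {E : Type} [Field E] (e1 : E →+* M1)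
  (e2 : E →+* M2) (te : E) (ht1 : e1 te = σ1 Polynomial.X) (ht2 : e2 te = σ2 Polynomial.X)

include ht1 ht2

/-- one step of the back and forth -/
theorem one_stepN {D : ℕ} (hD : ¬ p ∣ D) (hE : ∀ x : E, x ≠ 0 → Same σ1 σ2 D (e1 x) (e2 x))
    (hEc : ∀ m : ℕ, m ≠ 0 → ∀ x : E, x ≠ 0 → VC hM1.toMdl hM2.toMdl m (e1 x) (e2 x))
    (N m : ℕ) (hN : 1 ≤ N) (hm : m ≠ 0)
    {V : Type} [AddCommGroup V] [Module E V] (one : V) (Λ : Finset (V × E)) :
    ∃ (N' m' : ℕ) (Λ' : Finset V), 1 ≤ N' ∧ m' ≠ 0 ∧ ∀ (ρ1 : V →ₛₗ[e1] M1) (ρ2 : V →ₛₗ[e2] M2),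
      ρ1 one = 1 → ρ2 one = 1 → EqN hM1.toMdl hM2.toMdl D N' m' Λ' ρ1 ρ2 →
      ∀ w1 : M1, ∃ w2 : M2, EqN hM1.toMdl hM2.toMdl D N m Λ (ext e1 ρ1 w1) (ext e2 ρ2 w2) := by
  classical
  obtain ⟨N', m', hNN, hN', hm', hmm, hch⟩ := choice hM1 hM2 e1 e2 te ht1 ht2 hD N m hm
  refine ⟨N', m', LL te one p Λ, hN', hm', fun ρ1 ρ2 o1 o2 hg w1 => ?_⟩
  have sub1 : ∀ x ∈ Λ, x.1 ∈ LL te one p Λ := fun x hx => Finset.mem_union_left _
    (Finset.mem_image.2 ⟨x, hx, rfl⟩)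
  have sub2 : ∀ x ∈ Λ, ∀ ν ∈ Λ, x.1 - (x.2 * ν.2⁻¹) • ν.1 ∈ LL te one p Λ := fun x hx ν hν =>
    Finset.mem_union_right _ (Finset.mem_union_left _ (Finset.mem_image.2
      ⟨(x, ν), Finset.mk_mem_product hx hν, rfl⟩))
  have sub3 : ∀ ν ∈ Λ, SS te one p (S0 Λ) (DA Λ ν) ⊆ LL te one p Λ := fun ν hν f hf =>
    Finset.mem_union_right _ (Finset.mem_union_right _ (Finset.mem_biUnion.2 ⟨ν, hν, hf⟩))
  -- pull back
  have pull : ∀ (w2 : M2) (φ : V × E → V), (∀ x ∈ Λ, φ x ∈ LL te one p Λ) →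
      (∀ x ∈ Λ, ext e1 ρ1 w1 x = ρ1 (φ x)) → (∀ x ∈ Λ, ext e2 ρ2 w2 x = ρ2 (φ x)) →
      EqN hM1.toMdl hM2.toMdl D N m Λ (ext e1 ρ1 w1) (ext e2 ρ2 w2) := by
    intro w2 φ h1 h2 h3
    have hg' := hg.mono hNN hmm subset_rfl
    have e1 : ∀ a : List (V × E), (∀ i ∈ a, i ∈ Λ) →
        a.map (ext e1 ρ1 w1) = (a.map φ).map ρ1 := by
      intro a ha
      rw [List.map_map]
      exact List.map_congr_left fun x hx => h2 x (ha x hx)
    have e2 : ∀ a : List (V × E), (∀ i ∈ a, i ∈ Λ) →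
        a.map (ext e2 ρ2 w2) = (a.map φ).map ρ2 := by
      intro a ha
      rw [List.map_map]
      exact List.map_congr_left fun x hx => h3 x (ha x hx)
    have e3 : ∀ a : List (V × E), (∀ i ∈ a, i ∈ Λ) → ∀ i ∈ a.map φ, i ∈ LL te one p Λ := by
      intro a ha i hi
      obtain ⟨x, hx, rfl⟩ := List.mem_map.1 hi
      exact h1 x (ha x hx)
    refine ⟨fun x hx => ?_, fun a b ha hb ha' hb' => ?_⟩
    · rw [h2 x hx, h3 x hx]
      exact hg'.1 _ (h1 x hx)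
    · rw [e1 a ha, e1 b hb, e2 a ha, e2 b hb]
      exact hg'.2 _ _ (e3 a ha) (e3 b hb) (by rwa [List.length_map]) (by rwa [List.length_map])
  rcases (Λ.filter fun x => x.2 ≠ 0).eq_empty_or_nonempty with he | hne
  · -- the new form does not occur
    have h0 : ∀ x ∈ Λ, x.2 = 0 := by
      intro x hx
      by_contra h
      have h1 : x ∈ Λ.filter fun x => x.2 ≠ 0 := Finset.mem_filter.2 ⟨hx, h⟩
      rw [he] at h1
      exact absurd h1 (Finset.notMem_empty _)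
    refine ⟨0, pull 0 (fun x => x.1) sub1 (fun x hx => ?_) (fun x hx => ?_)⟩
    · rw [ext_apply, h0 x hx, map_zero, zero_mul, add_zero]
    · rw [ext_apply, mul_zero, add_zero]
  by_cases hz : ∃ ν ∈ Λ, ν.2 ≠ 0 ∧ w1 + ρ1 (ν.2⁻¹ • ν.1) = 0
  · -- one of the forms vanishes
    obtain ⟨ν, hν, hν0, hw⟩ := hz
    refine ⟨- (e2 ν.2⁻¹ * ρ2 ν.1), pull _ (fun x => x.1 - (x.2 * ν.2⁻¹) • ν.1)
      (fun x hx => sub2 x hx ν hν) (fun x hx => ?_) (fun x hx => ?_)⟩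
    · have hw' : w1 = - (e1 ν.2⁻¹ * ρ1 ν.1) := by
        rw [map_smulₛₗ, smul_eq_mul] at hw
        linear_combination hw
      rw [ext_apply, map_sub, map_smulₛₗ, smul_eq_mul, map_mul, hw']
      ring
    · rw [ext_apply, map_sub, map_smulₛₗ, smul_eq_mul, map_mul]
      ring
  push Not at hz
  obtain ⟨ν, hν, hmin⟩ := Finset.exists_min_image _
    (fun x => hM1.toMdl.fv (w1 + ρ1 (x.2⁻¹ • x.1))) hne
  rw [Finset.mem_filter] at hν
  obtain ⟨hν, hν0⟩ := hν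
  obtain ⟨w, hwdef⟩ : ∃ w, w = w1 + ρ1 (ν.2⁻¹ • ν.1) := ⟨_, rfl⟩
  have hw0 : w ≠ 0 := by
    rw [hwdef]
    exact hz ν hν hν0
  obtain ⟨S, hS⟩ : ∃ S, S = S0 Λ := ⟨_, rfl⟩
  obtain ⟨A, hAdef⟩ : ∃ A, A = DA Λ ν := ⟨_, rfl⟩
  have hg' : EqN hM1.toMdl hM2.toMdl D N' m' (SS te one p S A) ρ1 ρ2 := by
    rw [hS, hAdef]
    exact hg.mono le_rfl dvd_rfl (sub3 ν hν)
  have memA : ∀ x ∈ A, x.1 ≠ 0 ∧ hM1.toMdl.fv w ≤ hM1.toMdl.fv (w + ρ1 x.2) := by
    intro x hx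
    rw [hAdef, DA, Finset.mem_image] at hx
    obtain ⟨f, hf, rfl⟩ := hx
    refine ⟨(Finset.mem_filter.1 hf).2, ?_⟩
    have h1 : w + ρ1 (f.2⁻¹ • f.1 - ν.2⁻¹ • ν.1) = w1 + ρ1 (f.2⁻¹ • f.1) := by
      rw [hwdef, map_sub]
      ring
    rw [h1, hwdef]
    exact hmin f hf
  have m1 : ∀ f ∈ S, f ∈ SS te one p S A := fun f hf => Finset.mem_union_left _ hf
  have m2 : ∀ x ∈ A, x.1 • x.2 ∈ SS te one p S A := fun x hx => Finset.mem_union_right _
    (Finset.mem_union_left _ (Finset.mem_image.2 ⟨x, hx, rfl⟩))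
  have m3 : ∀ x ∈ A, x.2 ∈ SS te one p S A := fun x hx => Finset.mem_union_right _
    (Finset.mem_union_right _ (Finset.mem_union_left _ (Finset.mem_image.2 ⟨x, hx, rfl⟩)))
  have m4 : ∀ x ∈ A, x.1 • one ∈ SS te one p S A := fun x hx => Finset.mem_union_right _
    (Finset.mem_union_right _ (Finset.mem_union_right _ (Finset.mem_union_left _
      (Finset.mem_image.2 ⟨x, hx, rfl⟩))))
  have m5 : ∀ v ∈ ({one, te • one} : Finset V), v ∈ SS te one p S A := fun v hv =>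
    Finset.mem_union_right _ (Finset.mem_union_right _ (Finset.mem_union_right _
      (Finset.mem_union_right _ (Finset.mem_union_left _ hv))))
  have m6 : ∀ x ∈ A, ∀ h ∈ A, ∀ c < p, x.2 - (c : E) • h.2 ∈ SS te one p S A :=
    fun x hx h hh c hc => Finset.mem_union_right _ (Finset.mem_union_right _
      (Finset.mem_union_right _ (Finset.mem_union_right _ (Finset.mem_union_right _
        (Finset.mem_image.2 ⟨(x, (h, c)), Finset.mk_mem_product hx (Finset.mk_mem_product hh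
          (Finset.mem_range.2 hc)), rfl⟩)))))
  obtain ⟨z, hz1, hz2, hz3, hz4⟩ := hch one A w hw0 ρ1 ρ2 o1 o2 (SS te one p S A)
    (m5 _ (Finset.mem_insert_self _ _))
    (m5 _ (Finset.mem_insert_of_mem (Finset.mem_singleton_self _)))
    (fun x hx => ⟨(memA x hx).2, m3 x hx⟩) m6 hg'
  refine ⟨z - ρ2 (ν.2⁻¹ • ν.1), assemble hM1.toMdl hM2.toMdl e1 e2 hN hD hE (hEc m hm) one S A w z
    hw0 ρ1 ρ2 o1 o2 (SS te one p S A) m1
    (fun x hx => ⟨(memA x hx).1, (memA x hx).2, m3 x hx, m2 x hx, m4 x hx⟩)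
    (hg'.mono hNN hmm subset_rfl) hz1 hz2 hz3 hz4 Λ _ _ fun f hf => ?_⟩
  by_cases h0 : f.2 = 0
  · left
    refine ⟨f.1, ?_, ?_, ?_⟩
    · rw [hS]
      exact Finset.mem_image.2 ⟨f, Finset.mem_filter.2 ⟨hf, h0⟩, rfl⟩
    · rw [ext_apply, h0, map_zero, zero_mul, add_zero]
    · rw [ext_apply, h0, map_zero, zero_mul, add_zero]
  · right
    have h1 : e1 f.2 ≠ 0 := (map_ne_zero e1).2 h0
    have h2 : e2 f.2 ≠ 0 := (map_ne_zero e2).2 h0
    refine ⟨(f.2, f.2⁻¹ • f.1 - ν.2⁻¹ • ν.1), ?_, ?_, ?_⟩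
    · rw [hAdef]
      exact Finset.mem_image.2 ⟨f, Finset.mem_filter.2 ⟨hf, h0⟩, rfl⟩
    · have k2 : ρ1 f.1 = e1 f.2 * ρ1 (f.2⁻¹ • f.1) := by
        rw [map_smulₛₗ, smul_eq_mul, map_inv₀, mul_inv_cancel_left₀ h1]
      simp only
      rw [ext_apply, k2, map_sub, hwdef]
      ring
    · have k2 : ρ2 f.1 = e2 f.2 * ρ2 (f.2⁻¹ • f.1) := by
        rw [map_smulₛₗ, smul_eq_mul, map_inv₀, mul_inv_cancel_left₀ h2]
      simp only
      rw [ext_apply, k2, map_sub]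
      ring

end main

end FS90
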