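import Pool.Agent.FO90.Same
import Pool.Agent.FS90.Defs

/-!
# Families in two models which cannot be distinguished, with values of products
-/

set_option maxSynthPendingDepth 10

namespace FS90

open FT80 BF80 FO90 Polynomial

section defs

variable {p : ℕ} [Fact p.Prime] {M1 M2 : Type} [Field M1] [Field M2] {σ1 : P1 p →+* M1}
  {σ2 : P1 p →+* M2}

/-- nonzero elements of two models with the same value modulo `m` -/
def VC (hM1 : Mdl p σ1) (hM2 : Mdl p σ2) (m : ℕ) (a : M1) (b : M2) : Prop :=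
  ∃ (i : ℕ) (x : M1) (y : M2), x ≠ 0 ∧ y ≠ 0 ∧ hM1.fv a = hM1.fv (σ1 X) ^ i * hM1.fv x ^ m ∧
    hM2.fv b = hM2.fv (σ2 X) ^ i * hM2.fv y ^ m

/-- families with the same classes modulo `D`-th powers, the same values modulo `m`, and the same
comparisons of products of at most `N` members -/
def EqN (hM1 : Mdl p σ1) (hM2 : Mdl p σ2) (D N m : ℕ) {ι : Type*} (I : Finset ι) (f1 : ι → M1)
    (f2 : ι → M2) : Prop :=
  (∀ i ∈ I, Cl σ1 σ2 D (f1 i) (f2 i) ∧ (f1 i ≠ 0 → VC hM1 hM2 m (f1 i) (f2 i))) ∧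
    ∀ a b : List ι, (∀ i ∈ a, i ∈ I) → (∀ i ∈ b, i ∈ I) → a.length ≤ N → b.length ≤ N →
      (hM1.fv (a.map f1).prod ≤ hM1.fv (b.map f1).prod ↔
        hM2.fv (a.map f2).prod ≤ hM2.fv (b.map f2).prod)

end defs

section basic

variable {p : ℕ} [hp : Fact p.Prime] {M1 M2 : Type} [Field M1] [Field M2] {σ1 : P1 p →+* M1}
  {σ2 : P1 p →+* M2} {hM1 : Mdl p σ1} {hM2 : Mdl p σ2} {m : ℕ}

theorem VC.symm {a : M1} {b : M2} (h : VC hM1 hM2 m a b) : VC hM2 hM1 m b a := by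
  obtain ⟨i, x, y, hx, hy, h1, h2⟩ := h
  exact ⟨i, y, x, hy, hx, h2, h1⟩

theorem VC.mul {a a' : M1} {b b' : M2} (h : VC hM1 hM2 m a b) (h' : VC hM1 hM2 m a' b') :
    VC hM1 hM2 m (a * a') (b * b') := by
  obtain ⟨i, x, y, hx, hy, h1, h2⟩ := h
  obtain ⟨i', x', y', hx', hy', h1', h2'⟩ := h'
  refine ⟨i + i', x * x', y * y', mul_ne_zero hx hx', mul_ne_zero hy hy', ?_, ?_⟩
  · rw [map_mul, h1, h1', map_mul, pow_add, mul_pow, mul_mul_mul_comm]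
  · rw [map_mul, h2, h2', map_mul, pow_add, mul_pow, mul_mul_mul_comm]

/-- only the values matter -/
theorem VC.congr {a a' : M1} {b b' : M2} (h : VC hM1 hM2 m a b) (ha : hM1.fv a = hM1.fv a')
    (hb : hM2.fv b = hM2.fv b') : VC hM1 hM2 m a' b' := by
  obtain ⟨i, x, y, hx, hy, h1, h2⟩ := h
  exact ⟨i, x, y, hx, hy, ha ▸ h1, hb ▸ h2⟩

theorem VC.of_dvd {m' : ℕ} (hm : m' ∣ m) {a : M1} {b : M2} (h : VC hM1 hM2 m a b) :
    VC hM1 hM2 m' a b := by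
  obtain ⟨i, x, y, hx, hy, h1, h2⟩ := h
  obtain ⟨k, rfl⟩ := hm
  refine ⟨i, x ^ k, y ^ k, pow_ne_zero _ hx, pow_ne_zero _ hy, ?_, ?_⟩
  · rw [h1, map_pow, ← pow_mul, mul_comm k]
  · rw [h2, map_pow, ← pow_mul, mul_comm k]

variable {D N : ℕ} {ι : Type*} {I : Finset ι} {f1 : ι → M1} {f2 : ι → M2}

theorem EqN.symm (h : EqN hM1 hM2 D N m I f1 f2) : EqN hM2 hM1 D N m I f2 f1 := by
  refine ⟨fun i hi => ⟨(h.1 i hi).1.symm, fun h0 => ?_⟩,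
    fun a b ha hb ha' hb' => (h.2 a b ha hb ha' hb').symm⟩
  have h1 : f1 i ≠ 0 := fun h1 => h0 (((h.1 i hi).1.zero_iff hM1 hM2).1 h1)
  exact ((h.1 i hi).2 h1).symm

theorem EqN.mono {N' m' : ℕ} {I' : Finset ι} (h : EqN hM1 hM2 D N m I f1 f2) (hN : N' ≤ N)
    (hm : m' ∣ m) (hI : I' ⊆ I) : EqN hM1 hM2 D N' m' I' f1 f2 :=
  ⟨fun i hi => ⟨(h.1 i (hI hi)).1, fun h0 => ((h.1 i (hI hi)).2 h0).of_dvd hm⟩,
    fun a b ha hb ha' hb' => h.2 a b (fun i hi => hI (ha i hi)) (fun i hi => hI (hb i hi))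
      (ha'.trans hN) (hb'.trans hN)⟩

theorem EqN.le (h : EqN hM1 hM2 D N m I f1 f2) (hN : 1 ≤ N) {f g : ι} (hf : f ∈ I) (hg : g ∈ I) :
    hM1.fv (f1 f) ≤ hM1.fv (f1 g) ↔ hM2.fv (f2 f) ≤ hM2.fv (f2 g) := by
  have := h.2 [f] [g] (by simpa using hf) (by simpa using hg) hN hN
  simpa using this

theorem EqN.eqv (h : EqN hM1 hM2 D N m I f1 f2) (hN : 1 ≤ N) : Eqv hM1 hM2 D I f1 f2 :=
  ⟨fun i hi => (h.1 i hi).1, fun _ hi _ hj => h.le hN hi hj⟩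

end basic

end FS90
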